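import Mathlib
import Pool.Agent.Helper8.Diss.Main

set_option autoImplicit false
set_option maxHeartbeats 1000000
set_option linter.unusedSectionVars false

namespace Pool.Agent.Helper82.FC

open Finset Pool.Agent.Helper8.Diss

variable {ι : Type*} [DecidableEq ι]

/-- if short relations are balanced, the 2-adic tree gives the exact bound -/
lemma bal_lemma (S : Finset ι) (w : ι → ℤ) (hinj : Set.InjOn w S)
    (m : ℕ) (hm : 2 ^ m < 2 * S.card)
    (hbal : ∀ B ⊆ S, B.card ≤ m + 1 → ∀ ε : ι → ℤ, (∀ i ∈ B, |ε i| ≤ 1) →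
      ∑ i ∈ B, ε i * w i = 0 → ∑ i ∈ B, ε i = 0) :
    ∃ B ⊆ S, m + 1 ≤ B.card ∧ DissF B w := by
  classical
  obtain ⟨i₀, hi₀, E, hE, -, x, hx⟩ := exists_path m 0 S w hinj (by
    intro a _ b _
    simp) hm
  have hxinj : Set.InjOn x E := by
    intro e he f hf hef
    obtain ⟨_, h1, h2⟩ := hx e he
    obtain ⟨_, h3, h4⟩ := hx f hf
    rw [hef] at h1 h2
    rcases lt_trichotomy e f with h | h | h
    · exact absurd ((pow_dvd_pow _ (by omega)).trans h3) h2
    · exact h
    · exact absurd ((pow_dvd_pow _ (by omega)).trans h1) h4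
  have hi₀x : i₀ ∉ E.image x := by
    intro h
    obtain ⟨e, he, hxe⟩ := Finset.mem_image.mp h
    obtain ⟨_, _, h2⟩ := hx e he
    rw [hxe, sub_self] at h2
    exact h2 (dvd_zero _)
  have hBS : insert i₀ (E.image x) ⊆ S := by
    intro j hj
    rcases Finset.mem_insert.mp hj with rfl | hj
    · exact hi₀
    · obtain ⟨e, he, rfl⟩ := Finset.mem_image.mp hj
      exact (hx e he).1
  have hcard : (insert i₀ (E.image x)).card = m + 1 := by
    rw [Finset.card_insert_of_notMem hi₀x, Finset.card_image_of_injOn hxinj, hE]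
  refine ⟨insert i₀ (E.image x), hBS, hcard.ge, ?_⟩
  intro ε hε hsum
  have ht := hbal _ hBS hcard.le ε hε hsum
  rw [Finset.sum_insert hi₀x, Finset.sum_image hxinj] at hsum ht
  have hεe : ∀ e ∈ E, |ε (x e)| ≤ 1 := fun e he =>
    hε _ (Finset.mem_insert_of_mem (Finset.mem_image_of_mem _ he))
  have hsg : ∑ e ∈ E, ε (x e) * (w (x e) - w i₀) = 0 := by
    simp only [mul_sub, Finset.sum_sub_distrib, ← Finset.sum_mul]
    linear_combination hsum - w i₀ * ht
  have hall : ∀ e ∈ E, ε (x e) = 0 := by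
    by_contra hcon
    push Not at hcon
    set E₃ := E.filter (fun e => ε (x e) ≠ 0) with hE₃
    have hne : E₃.Nonempty := by
      obtain ⟨e, he, h⟩ := hcon
      exact ⟨e, Finset.mem_filter.mpr ⟨he, h⟩⟩
    set e₀ := E₃.min' hne with he₀
    have he₀mem : e₀ ∈ E₃ := Finset.min'_mem _ _
    obtain ⟨he₀E, he₀ne⟩ := Finset.mem_filter.mp he₀mem
    have hmin : ∀ e ∈ E, e < e₀ → ε (x e) = 0 := by
      intro e he hlt
      by_contra h
      have := Finset.min'_le E₃ e (Finset.mem_filter.mpr ⟨he, h⟩)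
      omega
    have hrest : (2 : ℤ) ^ (e₀ + 1) ∣ ∑ e ∈ E.erase e₀, ε (x e) * (w (x e) - w i₀) := by
      apply Finset.dvd_sum
      intro e he
      obtain ⟨hne', heE⟩ := Finset.mem_erase.mp he
      rcases lt_or_gt_of_ne hne' with h | h
      · rw [hmin e heE h, zero_mul]
        exact dvd_zero _
      · exact dvd_mul_of_dvd_right ((pow_dvd_pow _ (by omega)).trans (hx e heE).2.1) _
    have hone : ε (x e₀) = 1 ∨ ε (x e₀) = -1 := by
      have h1 := hεe e₀ he₀E
      rw [abs_le] at h1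
      omega
    obtain ⟨_, hd1, hd2⟩ := hx e₀ he₀E
    rw [← Finset.add_sum_erase _ _ he₀E] at hsg
    have h2 : (2 : ℤ) ^ (e₀ + 1) ∣ ε (x e₀) * (w (x e₀) - w i₀) := by
      have : ε (x e₀) * (w (x e₀) - w i₀) =
          -∑ e ∈ E.erase e₀, ε (x e) * (w (x e) - w i₀) := by linarith
      rw [this]
      exact dvd_neg.mpr hrest
    apply hd2
    rcases hone with h3 | h3
    · rwa [h3, one_mul] at h2
    · rw [h3, neg_one_mul] at h2
      exact (dvd_neg).mp h2
  have h00 : ε i₀ = 0 := by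
    rw [Finset.sum_eq_zero hall, add_zero] at ht
    exact ht
  intro j hj
  rcases Finset.mem_insert.mp hj with rfl | hj
  · exact h00
  · obtain ⟨e, he, rfl⟩ := Finset.mem_image.mp hj
    exact hall e he

/-- short intervals -/
lemma narrow_lemma (S : Finset ι) (w : ι → ℤ) (hinj : Set.InjOn w S) (h0 : ∀ i ∈ S, 0 < w i)
    (m : ℕ) (hm : 2 ^ m < 2 * S.card)
    (hn : ∀ i ∈ S, ∀ j ∈ S, (m : ℤ) * (w i - w j) < w j) :
    ∃ B ⊆ S, m + 1 ≤ B.card ∧ DissF B w := by
  classical
  apply bal_lemma S w hinj m hm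
  intro B hB hBc ε hε hsum
  rcases B.eq_empty_or_nonempty with hBe | hBn
  · rw [hBe]; simp
  obtain ⟨a, haB, hmin⟩ := Finset.exists_min_image B w hBn
  -- sum of the deviations
  set t := ∑ i ∈ B, ε i with ht
  by_contra hne
  have h1 : t * w a = -∑ i ∈ B, ε i * (w i - w a) := by
    simp only [mul_sub, Finset.sum_sub_distrib, ← Finset.sum_mul]
    rw [hsum, ← ht]
    ring
  have h2 : |∑ i ∈ B, ε i * (w i - w a)| ≤ ∑ i ∈ B.erase a, (w i - w a) := by
    have h3 : ∑ i ∈ B, ε i * (w i - w a) = ∑ i ∈ B.erase a, ε i * (w i - w a) := by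
      rw [← Finset.add_sum_erase _ _ haB]
      simp
    rw [h3]
    refine (Finset.abs_sum_le_sum_abs _ _).trans (Finset.sum_le_sum ?_)
    intro i hi
    have hiB := Finset.mem_of_mem_erase hi
    rw [abs_mul, abs_of_nonneg (sub_nonneg.mpr (hmin i hiB))]
    have := hε i hiB
    nlinarith [sub_nonneg.mpr (hmin i hiB)]
  have h4 : |t * w a| < w a := by
    rw [h1, abs_neg]
    refine lt_of_le_of_lt h2 ?_
    rcases (B.erase a).eq_empty_or_nonempty with he | hne'
    · rw [he, Finset.sum_empty]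
      exact h0 a (hB haB)
    · obtain ⟨c, hc, hmax⟩ := Finset.exists_max_image (B.erase a) w hne'
      have h5 : ∑ i ∈ B.erase a, (w i - w a) ≤ ∑ _i ∈ B.erase a, (w c - w a) :=
        Finset.sum_le_sum (fun i hi => by linarith [hmax i hi])
      rw [Finset.sum_const, nsmul_eq_mul, Finset.card_erase_of_mem haB] at h5
      have h6 : ((B.card - 1 : ℕ) : ℤ) ≤ m := by
        have : B.card - 1 ≤ m := by omega
        exact_mod_cast this
      have h7 : 0 ≤ w c - w a := sub_nonneg.mpr (hmin c (Finset.mem_of_mem_erase hc))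
      have h8 := hn c (hB (Finset.mem_of_mem_erase hc)) a (hB haB)
      nlinarith
  rw [abs_mul, abs_of_pos (h0 a (hB haB))] at h4
  have h9 : 1 ≤ |t| := Int.one_le_abs hne
  nlinarith [h0 a (hB haB)]

/-- residue classes -/
lemma residue_lemma (S : Finset ι) (w : ι → ℤ) (hinj : Set.InjOn w S)
    (m : ℕ) (hm : 2 ^ m < 2 * S.card) (q ρ : ℤ) (hq : (m : ℤ) + 1 < q) (hco : IsCoprime q ρ)
    (hr : ∀ i ∈ S, q ∣ w i - ρ) :
    ∃ B ⊆ S, m + 1 ≤ B.card ∧ DissF B w := by
  classical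
  apply bal_lemma S w hinj m hm
  intro B hB hBc ε hε hsum
  set t := ∑ i ∈ B, ε i with ht
  have h1 : t * ρ = -∑ i ∈ B, ε i * (w i - ρ) := by
    simp only [mul_sub, Finset.sum_sub_distrib, ← Finset.sum_mul]
    rw [hsum, ← ht]
    ring
  have h2 : q ∣ t * ρ := by
    rw [h1]
    exact dvd_neg.mpr (Finset.dvd_sum (fun i hi => dvd_mul_of_dvd_right (hr i (hB hi)) _))
  have h3 : q ∣ t := hco.dvd_of_dvd_mul_right h2
  have h4 : |t| ≤ B.card := by
    rw [ht]
    refine (Finset.abs_sum_le_sum_abs _ _).trans ?_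
    refine (Finset.sum_le_sum hε).trans ?_
    simp
  by_contra hne
  have h5 : q ≤ |t| := Int.le_of_dvd (abs_pos.mpr hne) ((dvd_abs _ _).mpr h3)
  have h6 : (B.card : ℤ) ≤ m + 1 := by exact_mod_cast hBc
  omega

end Pool.Agent.Helper82.FC
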