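import Mathlib
import Pool.Agent.Helper8.Diss.Main

set_option autoImplicit false
set_option maxHeartbeats 1000000
set_option linter.unusedSectionVars false

namespace Pool.Agent.Helper82.FC

open Finset Pool.Agent.Helper8.Diss

variable {ι : Type*} [DecidableEq ι]

/-- no nontrivial common relation of two systems of integer weights -/
def Diss2 (S : Finset ι) (u w : ι → ℤ) : Prop :=
  ∀ ε : ι → ℤ, (∀ i ∈ S, |ε i| ≤ 1) → ∑ i ∈ S, ε i * u i = 0 → ∑ i ∈ S, ε i * w i = 0 →
    ∀ i ∈ S, ε i = 0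

/-- cross product of the two coordinates -/
def X (u w : ι → ℤ) (i j : ι) : ℤ := w i * u j - w j * u i

lemma X_self (u w : ι → ℤ) (i : ι) : X u w i i = 0 := by unfold X; ring

lemma X_swap (u w : ι → ℤ) (i j : ι) : X u w i j = - X u w j i := by unfold X; ring

lemma X_cocycle (u w : ι → ℤ) (i j l : ι) :
    u j * X u w i l = u l * X u w i j + u i * X u w j l := by unfold X; ring

lemma two_pow_dvd_of_mul {k : ℕ} {a b : ℤ} (ha : ¬ (2 : ℤ) ∣ a) (h : (2 : ℤ) ^ k ∣ a * b) :
    (2 : ℤ) ^ k ∣ b := by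
  have hcop : IsCoprime ((2 : ℤ) ^ k) a := by
    apply IsCoprime.pow_left
    rw [Int.prime_two.coprime_iff_not_dvd]
    exact ha
  exact hcop.dvd_of_dvd_mul_left h

/-- the level at which a set of positions splits -/
lemma exists_split2 (S : Finset ι) (u w : ι → ℤ) (k : ℕ)
    (hk : ∀ x ∈ S, ∀ y ∈ S, (2 : ℤ) ^ k ∣ X u w x y)
    (hne : ∃ a ∈ S, ∃ b ∈ S, X u w a b ≠ 0) :
    ∃ k', k ≤ k' ∧ (∀ x ∈ S, ∀ y ∈ S, (2 : ℤ) ^ k' ∣ X u w x y) ∧
      ∃ x ∈ S, ∃ y ∈ S, ¬ (2 : ℤ) ^ (k' + 1) ∣ X u w x y := by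
  classical
  obtain ⟨a, ha, b, hb, hab⟩ := hne
  have hex : ∃ j : ℕ, ¬ ∀ x ∈ S, ∀ y ∈ S, (2 : ℤ) ^ j ∣ X u w x y := by
    refine ⟨(X u w a b).natAbs, fun h => ?_⟩
    have h1 := h a ha b hb
    have h3 : (2 : ℤ) ^ (X u w a b).natAbs ≤ |X u w a b| :=
      Int.le_of_dvd (abs_pos.mpr hab) ((dvd_abs _ _).mpr h1)
    have h4 : (X u w a b).natAbs < 2 ^ (X u w a b).natAbs := Nat.lt_two_pow_self
    have h5 : (((X u w a b).natAbs : ℕ) : ℤ) < (2 : ℤ) ^ (X u w a b).natAbs := by
      exact_mod_cast h4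
    rw [Int.natCast_natAbs] at h5
    linarith
  obtain ⟨j₀, hspec, hmin⟩ : ∃ j₀ : ℕ, (¬ ∀ x ∈ S, ∀ y ∈ S, (2 : ℤ) ^ j₀ ∣ X u w x y) ∧
      ∀ j < j₀, ∀ x ∈ S, ∀ y ∈ S, (2 : ℤ) ^ j ∣ X u w x y := by
    refine ⟨Nat.find hex, Nat.find_spec hex, fun j hj => ?_⟩
    exact not_not.mp (Nat.find_min hex hj)
  have hpos : k < j₀ := by
    by_contra hle
    push Not at hle
    apply hspec
    intro x hx y hy
    exact (pow_dvd_pow _ hle).trans (hk x hx y hy)
  obtain ⟨k', rfl⟩ : ∃ k', j₀ = k' + 1 := ⟨j₀ - 1, by omega⟩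
  refine ⟨k', by omega, hmin k' (by omega), ?_⟩
  push Not at hspec
  exact hspec

/-- adding an element of the other class -/
lemma diss2_insert (T : Finset ι) (u w : ι → ℤ) (k : ℕ)
    (hTT : ∀ x ∈ T, ∀ y ∈ T, (2 : ℤ) ^ (k + 1) ∣ X u w x y) (B : Finset ι) (hB : B ⊆ T)
    (hBne : T.Nonempty) (z : ι) (hz : ∀ x ∈ T, ¬ (2 : ℤ) ^ (k + 1) ∣ X u w z x)
    (hD : Diss2 B u w) : z ∉ B ∧ Diss2 (insert z B) u w := by
  classical
  have hzT : z ∉ T := fun h => hz z h (by rw [X_self]; exact dvd_zero _)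
  have hzB : z ∉ B := fun h => hzT (hB h)
  refine ⟨hzB, ?_⟩
  intro ε hε hu hw
  obtain ⟨q, hq⟩ := hBne
  rw [Finset.sum_insert hzB] at hu hw
  -- combine
  have hcomb : ε z * X u w z q + ∑ i ∈ B, ε i * X u w i q = 0 := by
    have h1 : ∑ i ∈ B, ε i * X u w i q =
        (∑ i ∈ B, ε i * w i) * u q - w q * ∑ i ∈ B, ε i * u i := by
      rw [Finset.sum_mul, Finset.mul_sum, ← Finset.sum_sub_distrib]
      apply Finset.sum_congr rfl
      intro i _
      unfold X
      ring
    rw [h1]
    unfold X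
    linear_combination u q * hw - w q * hu
  have hdvd : (2 : ℤ) ^ (k + 1) ∣ ∑ i ∈ B, ε i * X u w i q :=
    Finset.dvd_sum (fun i hi => dvd_mul_of_dvd_right (hTT i (hB hi) q hq) _)
  have hεz : ε z = 0 := by
    by_contra hne
    have h1 := hε z (Finset.mem_insert_self _ _)
    rw [abs_le] at h1
    have h2 : (2 : ℤ) ^ (k + 1) ∣ ε z * X u w z q := by
      have : ε z * X u w z q = -∑ i ∈ B, ε i * X u w i q := by linarith
      rw [this]
      exact dvd_neg.mpr hdvd
    rcases (by omega : ε z = 1 ∨ ε z = -1) with h | h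
    · rw [h, one_mul] at h2
      exact hz q hq h2
    · rw [h, neg_one_mul] at h2
      exact hz q hq ((dvd_neg).mp h2)
  rw [hεz, zero_mul, zero_add] at hu hw
  intro i hi
  rcases Finset.mem_insert.mp hi with h | h
  · rw [h]; exact hεz
  · exact hD ε (fun j hj => hε j (Finset.mem_insert_of_mem hj)) hu hw i h

/-- the class lemma: odd first coordinates, lines satisfy the statement `hO` -/
lemma class_lemma2 (u w : ι → ℤ) (ℓ : ℕ) : ∀ (n : ℕ) (S : Finset ι), S.card ≤ n →
    (∀ i ∈ S, ¬ (2 : ℤ) ∣ u i) →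
    (∀ T ⊆ S, (∀ i ∈ T, ∀ j ∈ T, X u w i j = 0) → (∀ i ∈ T, ∀ j ∈ S, X u w i j = 0 → j ∈ T) →
      ∀ m : ℕ, 2 ^ m < 2 * T.card → ∃ B ⊆ T, m + 1 ≤ B.card + ℓ ∧ Diss2 B u w) →
    ∀ m : ℕ, 2 ^ m < 2 * S.card → ∃ B ⊆ S, m + 1 ≤ B.card + ℓ ∧ Diss2 B u w := by
  classical
  intro n
  induction n with
  | zero =>
    intro S hS _ _ m hm
    have := Nat.one_le_two_pow (n := m)
    omega
  | succ n ih =>
    intro S hS hodd hO m hm
    by_cases hline : ∀ i ∈ S, ∀ j ∈ S, X u w i j = 0
    · exact hO S (Finset.Subset.refl _) hline (fun _ _ j hj _ => hj) m hm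
    · push Not at hline
      obtain ⟨k', -, hdiv, a, ha, b, hb, hab⟩ :=
        exists_split2 S u w 0 (by intros; simp) hline
      set S₀ := S.filter (fun z => (2 : ℤ) ^ (k' + 1) ∣ X u w z b) with hS₀
      set S₁ := S.filter (fun z => ¬ (2 : ℤ) ^ (k' + 1) ∣ X u w z b) with hS₁
      have hsum : S₀.card + S₁.card = S.card := Finset.card_filter_add_card_filter_not _
      have hb₀ : b ∈ S₀ := by
        rw [hS₀, Finset.mem_filter]
        exact ⟨hb, by rw [X_self]; exact dvd_zero _⟩
      have ha₁ : a ∈ S₁ := by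
        rw [hS₁, Finset.mem_filter]
        exact ⟨ha, hab⟩
      have hbo := hodd b hb
      have hcong₀ : ∀ x ∈ S₀, ∀ y ∈ S₀, (2 : ℤ) ^ (k' + 1) ∣ X u w x y := by
        intro x hx y hy
        have h1 := (Finset.mem_filter.mp hx).2
        have h2 := (Finset.mem_filter.mp hy).2
        apply two_pow_dvd_of_mul hbo
        rw [X_cocycle]
        apply dvd_add
        · exact dvd_mul_of_dvd_right h1 _
        · apply dvd_mul_of_dvd_right
          rw [X_swap]
          exact dvd_neg.mpr h2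
      have hcong₁ : ∀ x ∈ S₁, ∀ y ∈ S₁, (2 : ℤ) ^ (k' + 1) ∣ X u w x y := by
        intro x hx y hy
        obtain ⟨hxS, h1⟩ := Finset.mem_filter.mp hx
        obtain ⟨hyS, h2⟩ := Finset.mem_filter.mp hy
        obtain ⟨c, hc⟩ := hdiv x hxS b hb
        obtain ⟨d, hd⟩ := hdiv y hyS b hb
        have hco : ¬ (2 : ℤ) ∣ c := by
          intro h
          apply h1
          obtain ⟨e, rfl⟩ := h
          exact ⟨e, by rw [hc]; ring⟩
        have hdo : ¬ (2 : ℤ) ∣ d := by
          intro h
          apply h2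
          obtain ⟨e, rfl⟩ := h
          exact ⟨e, by rw [hd]; ring⟩
        have hxo := hodd x hxS
        have hyo := hodd y hyS
        apply two_pow_dvd_of_mul hbo
        rw [X_cocycle, X_swap u w b y, hc, hd]
        have h3 : (2 : ℤ) ∣ u y * c - u x * d := by
          have e1 : Odd (u y * c) := by
            rw [Int.odd_mul]
            exact ⟨Int.not_even_iff_odd.mp (fun h => hyo h.two_dvd),
              Int.not_even_iff_odd.mp (fun h => hco h.two_dvd)⟩
          have e2 : Odd (u x * d) := by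
            rw [Int.odd_mul]
            exact ⟨Int.not_even_iff_odd.mp (fun h => hxo h.two_dvd),
              Int.not_even_iff_odd.mp (fun h => hdo h.two_dvd)⟩
          exact (e1.sub_odd e2).two_dvd
        obtain ⟨e, he⟩ := h3
        refine ⟨e, ?_⟩
        rw [pow_succ]
        linear_combination (2 : ℤ) ^ k' * he
      have hcross : ∀ x ∈ S₀, ∀ y ∈ S₁, ¬ (2 : ℤ) ^ (k' + 1) ∣ X u w y x := by
        intro x hx y hy h
        obtain ⟨hxS, h1⟩ := Finset.mem_filter.mp hx
        obtain ⟨hyS, h2⟩ := Finset.mem_filter.mp hy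
        apply h2
        apply two_pow_dvd_of_mul (hodd x hxS)
        rw [X_cocycle]
        exact dvd_add (dvd_mul_of_dvd_right h _) (dvd_mul_of_dvd_right h1 _)
      have step : ∀ T U : Finset ι, T ⊆ S → U ⊆ S → U.Nonempty → T.card < S.card →
          (∀ j ∈ S, j ∉ T → j ∈ U) →
          T.Nonempty → 2 ^ (m - 1) < 2 * T.card → 1 ≤ m →
          (∀ x ∈ T, ∀ y ∈ T, (2 : ℤ) ^ (k' + 1) ∣ X u w x y) →
          (∀ x ∈ T, ∀ y ∈ U, ¬ (2 : ℤ) ^ (k' + 1) ∣ X u w y x) →
          ∃ B ⊆ S, m + 1 ≤ B.card + ℓ ∧ Diss2 B u w := by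
        intro T U hT hU hUn hTS hcov hTn hTc hm1 hTT hTU
        obtain ⟨B, hB, hBc, hBD⟩ := ih T (by omega) (fun i hi => hodd i (hT hi))
          (fun T' hT' hl hsat => hO T' (hT'.trans hT) hl (fun i hi j hj hij => by
            by_cases hjT : j ∈ T
            · exact hsat i hi j hjT hij
            · exfalso
              apply hTU i (hT' hi) j (hcov j hj hjT)
              rw [X_swap, hij, neg_zero]
              exact dvd_zero _)) (m - 1) hTc
        obtain ⟨z, hz⟩ := hUn
        obtain ⟨hzB, hD⟩ := diss2_insert T u w k' hTT B hB hTn z (fun x hx => hTU x hx z hz) hBD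
        refine ⟨insert z B, ?_, ?_, hD⟩
        · intro j hj
          rcases Finset.mem_insert.mp hj with rfl | hj
          · exact hU hz
          · exact hT (hB hj)
        · rw [Finset.card_insert_of_notMem hzB]
          omega
      have hS₀pos : 0 < S₀.card := Finset.card_pos.mpr ⟨b, hb₀⟩
      have hS₁pos : 0 < S₁.card := Finset.card_pos.mpr ⟨a, ha₁⟩
      rcases Nat.eq_zero_or_pos m with hm0 | hmpos
      · -- a single element
        refine ⟨{a}, by simpa using ha, by simp [hm0], ?_⟩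
        intro ε hε hu _ i hi
        rw [Finset.mem_singleton] at hi
        rw [Finset.sum_singleton] at hu
        rw [hi]
        rcases mul_eq_zero.mp hu with h | h
        · exact h
        · exact absurd (by rw [h]; exact dvd_zero _) (hodd a ha)
      · obtain ⟨m', rfl⟩ : ∃ m', m = m' + 1 := ⟨m - 1, by omega⟩
        have hp : 2 ^ (m' + 1) = 2 * 2 ^ m' := by rw [pow_succ]; ring
        simp only [Nat.add_sub_cancel] at step
        rcases le_total S₁.card S₀.card with hle | hle
        · exact step S₀ S₁ (Finset.filter_subset _ _) (Finset.filter_subset _ _) ⟨a, ha₁⟩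
            (by omega) (fun j hj hjn => Finset.mem_filter.mpr
              ⟨hj, fun h => hjn (Finset.mem_filter.mpr ⟨hj, h⟩)⟩)
            ⟨b, hb₀⟩ (by omega) (by omega) hcong₀ hcross
        · apply step S₁ S₀ (Finset.filter_subset _ _) (Finset.filter_subset _ _) ⟨b, hb₀⟩
            (by omega) (fun j hj hjn => Finset.mem_filter.mpr
              ⟨hj, by
                by_contra h
                exact hjn (Finset.mem_filter.mpr ⟨hj, h⟩)⟩)
            ⟨a, ha₁⟩ (by omega) (by omega) hcong₁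
          intro x hx y hy h
          apply hcross y hy x hx
          rw [X_swap]
          exact dvd_neg.mpr h

/-- all elements of `T` have `u`-value of 2-adic valuation exactly `v` -/
def SameVal (T : Finset ι) (u : ι → ℤ) : Prop :=
  ∃ v : ℕ, ∀ i ∈ T, (2 : ℤ) ^ v ∣ u i ∧ ¬ (2 : ℤ) ^ (v + 1) ∣ u i

/-- the whole set: `hO` is the statement for lines and one 2-adic valuation -/
lemma full_lemma (u w : ι → ℤ) (ℓ : ℕ) : ∀ (s : ℕ) (S : Finset ι), (∀ i ∈ S, u i ≠ 0) →
    (∀ T ⊆ S, SameVal T u → (∀ i ∈ T, ∀ j ∈ T, X u w i j = 0) →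
      (∀ i ∈ T, ∀ j ∈ S, X u w i j = 0 → (∀ v : ℕ, (2 : ℤ) ^ v ∣ u i ↔ (2 : ℤ) ^ v ∣ u j) →
        j ∈ T) → ∀ m : ℕ, 2 ^ m < 2 * T.card →
      ∃ B ⊆ T, m + 1 ≤ B.card + ℓ ∧ Diss2 B u w) →
    2 ^ s ≤ S.card → ∃ B ⊆ S, s + 1 ≤ B.card + ℓ ∧ Diss2 B u w := by
  classical
  intro s
  induction s with
  | zero =>
    intro S h0 hO hc
    have hS : S.Nonempty := by
      rw [← Finset.card_pos]
      have : (2 : ℕ) ^ 0 = 1 := pow_zero _
      omega
    obtain ⟨a, ha⟩ := hS
    refine ⟨{a}, by simpa using ha, by simp, ?_⟩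
    intro ε hε hsum _ i hi
    rw [Finset.mem_singleton] at hi
    rw [Finset.sum_singleton] at hsum
    rw [hi]
    rcases mul_eq_zero.mp hsum with h | h
    · exact h
    · exact absurd h (h0 a ha)
  | succ s ih =>
    intro S h0 hO hc
    have hS : S.Nonempty := by
      rw [← Finset.card_pos]
      have : 1 ≤ 2 ^ (s + 1) := Nat.one_le_two_pow
      omega
    obtain ⟨v, hv, c, hcS, hcv⟩ := exists_min_val S u h0 hS
    set C := S.filter (fun i => ¬ (2 : ℤ) ^ (v + 1) ∣ u i) with hC
    have hCS : C ⊆ S := Finset.filter_subset _ _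
    by_cases hbig : 2 ^ (s + 1) < 2 * C.card
    · have hquot : ∀ i : ι, ∃ q : ℤ, i ∈ C → (u i = 2 ^ v * q ∧ ¬ (2 : ℤ) ∣ q) := by
        intro i
        by_cases hi : i ∈ C
        · obtain ⟨hiS, hi2⟩ := Finset.mem_filter.mp hi
          obtain ⟨q, hq⟩ := hv i hiS
          refine ⟨q, fun _ => ⟨hq, ?_⟩⟩
          intro h
          apply hi2
          obtain ⟨e, rfl⟩ := h
          exact ⟨e, by rw [hq]; ring⟩
        · exact ⟨0, fun h => absurd h hi⟩
      choose q hq using hquot
      have hpow : (2 : ℤ) ^ v ≠ 0 := by positivity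
      have hXq : ∀ i ∈ C, ∀ j ∈ C, X u w i j = 2 ^ v * X q w i j := by
        intro i hi j hj
        unfold X
        rw [(hq i hi).1, (hq j hj).1]
        ring
      have hDq : ∀ B ⊆ C, Diss2 B q w → Diss2 B u w := by
        intro B hB hD ε hε hu hw
        apply hD ε hε _ hw
        have h2 : (2 : ℤ) ^ v * ∑ i ∈ B, ε i * q i = 0 := by
          rw [← hu, Finset.mul_sum]
          apply Finset.sum_congr rfl
          intro j hj
          rw [(hq j (hB hj)).1]
          ring
        rcases mul_eq_zero.mp h2 with h | h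
        · exact absurd h hpow
        · exact h
      have hDu : ∀ B ⊆ C, Diss2 B u w → Diss2 B q w := by
        intro B hB hD ε hε hu hw
        apply hD ε hε _ hw
        have h2 : (2 : ℤ) ^ v * ∑ i ∈ B, ε i * q i = ∑ i ∈ B, ε i * u i := by
          rw [Finset.mul_sum]
          apply Finset.sum_congr rfl
          intro j hj
          rw [(hq j (hB hj)).1]
          ring
        rw [← h2, hu, mul_zero]
      obtain ⟨B, hBC, hBc, hB⟩ := class_lemma2 q w ℓ C.card C le_rfl
        (fun i hi => (hq i hi).2) (by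
          intro T hT hTX hsat m hm
          obtain ⟨B, hB, hBc, hBD⟩ := hO T (hT.trans hCS) ⟨v, fun i hi =>
            ⟨hv i (hCS (hT hi)), (Finset.mem_filter.mp (hT hi)).2⟩⟩ (by
              intro i hi j hj
              rw [hXq i (hT hi) j (hT hj), hTX i hi j hj, mul_zero]) (by
              intro i hi j hj hij hval
              have hjC : j ∈ C := by
                rw [hC, Finset.mem_filter]
                exact ⟨hj, fun h => (Finset.mem_filter.mp (hT hi)).2 ((hval (v + 1)).mpr h)⟩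
              apply hsat i hi j hjC
              have := hXq i (hT hi) j hjC
              rw [hij] at this
              rcases mul_eq_zero.mp this.symm with h | h
              · exact absurd h hpow
              · exact h) m hm
          exact ⟨B, hB, hBc, hDu B (hB.trans hT) hBD⟩) (s + 1) hbig
      exact ⟨B, hBC.trans hCS, hBc, hDq B hBC hB⟩
    · push Not at hbig
      set R := S.filter (fun i => (2 : ℤ) ^ (v + 1) ∣ u i) with hR
      have hRS : R ⊆ S := Finset.filter_subset _ _
      have hsum : R.card + C.card = S.card := Finset.card_filter_add_card_filter_not _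
      obtain ⟨B, hBR, hBc, hB⟩ := ih R (fun i hi => h0 i (hRS hi))
        (fun T hT hsv hl hsat => hO T (hT.trans hRS) hsv hl (fun i hi j hj hij hval =>
          hsat i hi j (by
            rw [hR, Finset.mem_filter]
            exact ⟨hj, (hval (v + 1)).mp (Finset.mem_filter.mp (hT hi)).2⟩) hij hval))
        (by rw [pow_succ] at hbig hc; omega)
      have hcB : c ∉ B := fun h => hcv (Finset.mem_filter.mp (hBR h)).2
      refine ⟨insert c B, ?_, ?_, ?_⟩
      · intro i hi
        rcases Finset.mem_insert.mp hi with h | h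
        · rw [h]; exact hcS
        · exact hRS (hBR h)
      · rw [Finset.card_insert_of_notMem hcB]
        omega
      · intro ε hε hsum0 hsum1 i hi
        rw [Finset.sum_insert hcB] at hsum0 hsum1
        have hd : (2 : ℤ) ^ (v + 1) ∣ ∑ i ∈ B, ε i * u i := by
          apply Finset.dvd_sum
          intro j hj
          exact dvd_mul_of_dvd_right (Finset.mem_filter.mp (hBR hj)).2 _
        have hεc : ε c = 0 := by
          by_contra hne
          have h1 := hε c (Finset.mem_insert_self _ _)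
          rw [abs_le] at h1
          have h2 : (2 : ℤ) ^ (v + 1) ∣ ε c * u c := by
            have : ε c * u c = -∑ i ∈ B, ε i * u i := by linarith
            rw [this]
            exact dvd_neg.mpr hd
          rcases (by omega : ε c = 1 ∨ ε c = -1) with h | h
          · rw [h, one_mul] at h2
            exact hcv h2
          · rw [h, neg_one_mul] at h2
            exact hcv ((dvd_neg).mp h2)
        rw [hεc, zero_mul, zero_add] at hsum0 hsum1
        rcases Finset.mem_insert.mp hi with h | h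
        · rw [h]; exact hεc
        · exact hB ε (fun j hj => hε j (Finset.mem_insert_of_mem hj)) hsum0 hsum1 i h

end Pool.Agent.Helper82.FC
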