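import Mathlib
import Pool.Agent.Helper8.Diss.Main

set_option autoImplicit false
set_option maxHeartbeats 4000000
set_option linter.unusedSectionVars false

namespace Pool.Agent.Helper82.FC

open Finset Pool.Agent.Helper8.Diss

variable {ι : Type*} [DecidableEq ι]

/-- from an injective tuple whose absolute values have no relation to a dissociated set -/
lemma diss_of_tuple (u : ι → ℤ) (k : ℕ) (x : Fin k → ι) (hinj : Function.Injective x)
    (h : ∀ e : Fin k → ℤ, (∀ j, |e j| ≤ 1) → ∑ j, e j * |u (x j)| = 0 → ∀ j, e j = 0)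
    (h0 : ∀ j, u (x j) ≠ 0) :
    (Finset.univ.image x).card = k ∧ DissF (Finset.univ.image x) u := by
  classical
  refine ⟨by rw [Finset.card_image_of_injective _ hinj]; simp, ?_⟩
  intro ε hε hsum i hi
  rw [Finset.sum_image (fun a _ b _ hab => hinj hab)] at hsum
  obtain ⟨j, -, rfl⟩ := Finset.mem_image.mp hi
  have h1 := h (fun j => ε (x j) * (u (x j)).sign) (by
    intro j
    rw [abs_mul]
    have h2 := hε (x j) (Finset.mem_image_of_mem _ (Finset.mem_univ _))
    have h3 : |(u (x j)).sign| = 1 := by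
      rcases lt_or_gt_of_ne (h0 j) with h | h
      · rw [Int.sign_eq_neg_one_of_neg h]; norm_num
      · rw [Int.sign_eq_one_of_pos h]; norm_num
    rw [h3, mul_one]
    exact h2) (by
    rw [← hsum]
    apply Finset.sum_congr rfl
    intro j _
    have h4 : (u (x j)).sign * |u (x j)| = u (x j) := by
      rcases lt_or_gt_of_ne (h0 j) with h | h
      · rw [Int.sign_eq_neg_one_of_neg h, abs_of_neg h]; ring
      · rw [Int.sign_eq_one_of_pos h, abs_of_pos h]; ring
    rw [mul_assoc, h4]) j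
  rcases mul_eq_zero.mp h1 with h2 | h2
  · exact h2
  · exact absurd (Int.sign_eq_zero_iff_zero.mp h2) (h0 j)

lemma tri {e : ℤ} (h : |e| ≤ 1) : e = -1 ∨ e = 0 ∨ e = 1 := by
  rw [abs_le] at h
  omega

/-- two odd numbers -/
lemma two_odd (a b : ℤ) (h1 : 0 < a) (h2 : a < b) (e : Fin 2 → ℤ) (he : ∀ j, |e j| ≤ 1)
    (hs : e 0 * a + e 1 * b = 0) : ∀ j, e j = 0 := by
  rcases tri (he 0) with h | h | h <;> rcases tri (he 1) with h' | h' | h' <;>
    rw [h, h'] at hs <;> first
    | (exfalso; omega)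
    | (intro j; fin_cases j <;> simp [h, h'])

/-- three odd numbers -/
lemma three_odd (a b c : ℤ) (h1 : 0 < a) (h2 : a < b) (h3 : b < c) (ha : ¬ (2 : ℤ) ∣ a)
    (hb : ¬ (2 : ℤ) ∣ b) (hc : ¬ (2 : ℤ) ∣ c) (e : Fin 3 → ℤ) (he : ∀ j, |e j| ≤ 1)
    (hs : e 0 * a + e 1 * b + e 2 * c = 0) : ∀ j, e j = 0 := by
  rcases tri (he 0) with h | h | h <;> rcases tri (he 1) with h' | h' | h' <;>
    rcases tri (he 2) with h'' | h'' | h'' <;>
    rw [h, h', h''] at hs <;> first
    | (exfalso; omega)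
    | (intro j; fin_cases j <;> simp [h, h', h''])

/-- four odd numbers `a < b < c < d` with `a ≠ |b + c - d|` -/
lemma four_odd (a b c d : ℤ) (h1 : 0 < a) (h2 : a < b) (h3 : b < c) (h4 : c < d)
    (ha : ¬ (2 : ℤ) ∣ a) (hb : ¬ (2 : ℤ) ∣ b) (hc : ¬ (2 : ℤ) ∣ c) (hd : ¬ (2 : ℤ) ∣ d)
    (hn : a ≠ |b + c - d|) (e : Fin 4 → ℤ) (he : ∀ j, |e j| ≤ 1)
    (hs : e 0 * a + e 1 * b + e 2 * c + e 3 * d = 0) : ∀ j, e j = 0 := by
  have hn1 : a ≠ b + c - d := fun h => hn (by rw [← h, abs_of_pos h1])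
  have hn2 : a ≠ -(b + c - d) := fun h => hn (by
    rw [← abs_neg, ← h, abs_of_pos h1])
  rcases tri (he 0) with h | h | h <;> rcases tri (he 1) with h' | h' | h' <;>
    rcases tri (he 2) with h'' | h'' | h'' <;> rcases tri (he 3) with h''' | h''' | h''' <;>
    rw [h, h', h'', h'''] at hs <;> first
    | (exfalso; omega)
    | (intro j; fin_cases j <;> simp [h, h', h'', h'''])

/-- five odd numbers -/
lemma five_odd (p a b c d : ℤ) (h0 : 0 < p) (h1 : p < a) (h2 : a < b) (h3 : b < c) (h4 : c < d)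
    (hp : ¬ (2 : ℤ) ∣ p)
    (ha : ¬ (2 : ℤ) ∣ a) (hb : ¬ (2 : ℤ) ∣ b) (hc : ¬ (2 : ℤ) ∣ c) (hd : ¬ (2 : ℤ) ∣ d)
    (hn : a ≠ |b + c - d|) (hp1 : p ≠ |b + c - d|) (hp2 : p ≠ |a + c - d|)
    (hp3 : p ≠ |a + b - d|) (hp4 : p ≠ |a + b - c|) (e : Fin 5 → ℤ) (he : ∀ j, |e j| ≤ 1)
    (hs : e 0 * p + e 1 * a + e 2 * b + e 3 * c + e 4 * d = 0) : ∀ j, e j = 0 := by
  have key : ∀ (q y : ℤ), 0 < q → q ≠ |y| → q ≠ y ∧ q ≠ -y := by
    intro q y hq hqy
    exact ⟨fun h => hqy (by rw [← h, abs_of_pos hq]), fun h => hqy (by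
      rw [← abs_neg, ← h, abs_of_pos hq])⟩
  obtain ⟨n1, n2⟩ := key a _ (by omega) hn
  obtain ⟨n3, n4⟩ := key p _ h0 hp1
  obtain ⟨n5, n6⟩ := key p _ h0 hp2
  obtain ⟨n7, n8⟩ := key p _ h0 hp3
  obtain ⟨n9, n10⟩ := key p _ h0 hp4
  clear hn hp1 hp2 hp3 hp4 key
  rcases tri (he 0) with h | h | h <;> rcases tri (he 1) with h' | h' | h' <;>
    rcases tri (he 2) with h'' | h'' | h'' <;> rcases tri (he 3) with h''' | h''' | h''' <;>
    rcases tri (he 4) with h4' | h4' | h4' <;>
    rw [h, h', h'', h''', h4'] at hs <;> first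
    | (exfalso; omega)
    | (intro j; fin_cases j <;> simp [h, h', h'', h''', h4'])

/-- a sorted tuple -/
lemma exists_sorted (T : Finset ι) (u : ι → ℤ) (n : ℕ) (hn : n ≤ T.card)
    (habs : ∀ i ∈ T, ∀ j ∈ T, |u i| = |u j| → i = j) :
    ∃ x : Fin n → ι, (∀ j, x j ∈ T) ∧ StrictMono (fun j => |u (x j)|) := by
  classical
  obtain ⟨T', hT', hc⟩ := Finset.exists_subset_card_eq hn
  set V := T'.image (fun i => |u i|) with hV
  have hVc : V.card = n := by
    rw [hV, Finset.card_image_of_injOn, hc]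
    intro i hi j hj hij
    exact habs i (hT' hi) j (hT' hj) hij
  have hex : ∀ j : Fin n, ∃ i ∈ T', |u i| = V.orderEmbOfFin hVc j := by
    intro j
    exact Finset.mem_image.mp (Finset.orderEmbOfFin_mem V hVc j)
  choose x hx hxe using hex
  refine ⟨x, fun j => hT' (hx j), ?_⟩
  intro i j hij
  simp only [hxe]
  exact (V.orderEmbOfFin hVc).strictMono hij

/-- small sets of odd integers satisfy the exact bound -/
lemma odd_small (T : Finset ι) (u : ι → ℤ) (hodd : ∀ i ∈ T, ¬ (2 : ℤ) ∣ u i)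
    (habs : ∀ i ∈ T, ∀ j ∈ T, |u i| = |u j| → i = j) (hT : T.card ≤ 16) (m : ℕ)
    (hm : 2 ^ m < 2 * T.card) : ∃ B ⊆ T, m + 1 ≤ B.card ∧ DissF B u := by
  classical
  have hm5 : m < 5 := by
    by_contra h
    have : 2 ^ 5 ≤ 2 ^ m := Nat.pow_le_pow_right (by norm_num) (by omega)
    omega
  have h0 : ∀ i ∈ T, u i ≠ 0 := by
    intro i hi h
    apply hodd i hi
    rw [h]
    exact dvd_zero _
  have hodd' : ∀ i ∈ T, ¬ (2 : ℤ) ∣ |u i| := by
    intro i hi h
    exact hodd i hi ((dvd_abs _ _).mp h)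
  have hpos : ∀ i ∈ T, 0 < |u i| := fun i hi => abs_pos.mpr (h0 i hi)
  -- generic conclusion
  have fin : ∀ (k : ℕ) (x : Fin k → ι), (∀ j, x j ∈ T) → Function.Injective x →
      (∀ e : Fin k → ℤ, (∀ j, |e j| ≤ 1) → ∑ j, e j * |u (x j)| = 0 → ∀ j, e j = 0) →
      ∃ B ⊆ T, k ≤ B.card ∧ DissF B u := by
    intro k x hx hinj h
    obtain ⟨h1, h2⟩ := diss_of_tuple u k x hinj h (fun j => h0 _ (hx j))
    exact ⟨_, by
      intro i hi
      obtain ⟨j, -, rfl⟩ := Finset.mem_image.mp hi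
      exact hx j, h1.ge, h2⟩
  have inj_of : ∀ (k : ℕ) (x : Fin k → ι), StrictMono (fun j => |u (x j)|) →
      Function.Injective x := by
    intro k x hx i j hij
    exact hx.injective (by simp only [hij])
  interval_cases m
  · -- one element
    obtain ⟨x, hx, hmono⟩ := exists_sorted T u 1 (by omega) habs
    apply fin 1 x hx (inj_of 1 x hmono)
    intro e he hs j
    rw [Fin.sum_univ_one] at hs
    have := hpos (x 0) (hx 0)
    rcases mul_eq_zero.mp hs with h | h
    · fin_cases j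
      exact h
    · omega
  · obtain ⟨x, hx, hmono⟩ := exists_sorted T u 2 (by omega) habs
    apply fin 2 x hx (inj_of 2 x hmono)
    intro e he hs
    rw [Fin.sum_univ_two] at hs
    exact two_odd _ _ (hpos _ (hx 0)) (hmono (by decide : (0 : Fin 2) < 1)) e he hs
  · obtain ⟨x, hx, hmono⟩ := exists_sorted T u 3 (by omega) habs
    apply fin 3 x hx (inj_of 3 x hmono)
    intro e he hs
    rw [Fin.sum_univ_three] at hs
    exact three_odd _ _ _ (hpos _ (hx 0)) (hmono (by decide : (0 : Fin 3) < 1))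
      (hmono (by decide : (1 : Fin 3) < 2)) (hodd' _ (hx 0)) (hodd' _ (hx 1)) (hodd' _ (hx 2))
      e he hs
  · obtain ⟨x, hx, hmono⟩ := exists_sorted T u 5 (by omega) habs
    have g : ∀ i : Fin 5, i < 2 → |u (x i)| ≠ |(|u (x 2)| + |u (x 3)| - |u (x 4)|)| →
        ∃ B ⊆ T, 4 ≤ B.card ∧ DissF B u := by
      intro i hi hne
      have i2 : |u (x i)| < |u (x 2)| := hmono hi
      have i3 : |u (x 2)| < |u (x 3)| := hmono (by decide : (2 : Fin 5) < 3)
      have i4 : |u (x 3)| < |u (x 4)| := hmono (by decide : (3 : Fin 5) < 4)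
      apply fin 4 ![x i, x 2, x 3, x 4]
      · intro j
        fin_cases j
        · exact hx i
        · exact hx 2
        · exact hx 3
        · exact hx 4
      · apply inj_of
        intro a b hab
        fin_cases a <;> fin_cases b <;> simp at hab ⊢ <;> omega
      · intro e he hs
        rw [Fin.sum_univ_four] at hs
        exact four_odd _ _ _ _ (hpos _ (hx i)) i2 i3 i4 (hodd' _ (hx i)) (hodd' _ (hx 2))
          (hodd' _ (hx 3)) (hodd' _ (hx 4)) hne e he hs
    by_cases h1 : |u (x 1)| = |(|u (x 2)| + |u (x 3)| - |u (x 4)|)|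
    · apply g 0 (by decide)
      rw [← h1]
      exact (hmono (by decide : (0 : Fin 5) < 1)).ne
    · exact g 1 (by decide) h1
  · obtain ⟨x, hx, hmono⟩ := exists_sorted T u 9 (by omega) habs
    set f : Fin 9 → ℤ := fun j => |u (x j)| with hf
    have i7 : f 6 < f 7 := hmono (by decide)
    have i8 : f 7 < f 8 := hmono (by decide)
    have g : ∀ i j : Fin 9, i < j → j < 6 → f j ≠ |f 6 + f 7 - f 8| →
        f i ≠ |f 6 + f 7 - f 8| → f i ≠ |f j + f 7 - f 8| → f i ≠ |f j + f 6 - f 8| →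
        f i ≠ |f j + f 6 - f 7| → ∃ B ⊆ T, 5 ≤ B.card ∧ DissF B u := by
      intro i j hij hj n1 n2 n3 n4 n5
      have k1 : f i < f j := hmono hij
      have k2 : f j < f 6 := hmono hj
      apply fin 5 ![x i, x j, x 6, x 7, x 8]
      · intro l
        fin_cases l
        · exact hx i
        · exact hx j
        · exact hx 6
        · exact hx 7
        · exact hx 8
      · apply inj_of
        intro a b hab
        fin_cases a <;> fin_cases b <;> simp at hab ⊢ <;> simp only [hf] at * <;> omega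
      · intro e he hs
        rw [Fin.sum_univ_five] at hs
        exact five_odd (f i) (f j) (f 6) (f 7) (f 8) (hpos _ (hx i)) k1 k2 i7 i8
          (hodd' _ (hx i)) (hodd' _ (hx j))
          (hodd' _ (hx 6)) (hodd' _ (hx 7)) (hodd' _ (hx 8)) n1 n2 n3 n4 n5 e he hs
    -- choose the fifth element
    have pig : ∀ (s : Finset (Fin 9)) (l : List ℤ), l.length < s.card →
        ∃ i ∈ s, f i ∉ l := by
      intro s l hl
      by_contra hcon
      push Not at hcon
      have h1 : (s.image f).card ≤ l.toFinset.card := by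
        apply Finset.card_le_card
        intro y hy
        obtain ⟨i, hi, rfl⟩ := Finset.mem_image.mp hy
        exact List.mem_toFinset.mpr (hcon i hi)
      rw [Finset.card_image_of_injective _ hmono.injective] at h1
      have h2 := List.toFinset_card_le l
      omega
    by_cases h5 : f 5 = |f 6 + f 7 - f 8|
    · obtain ⟨i, hi, hn⟩ := pig (Finset.univ.filter (fun i : Fin 9 => i < 4))
        [|f 4 + f 7 - f 8|, |f 4 + f 6 - f 8|, |f 4 + f 6 - f 7|] (by
          simp only [List.length_cons, List.length_nil]; decide)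
      have hi4 : i < 4 := (Finset.mem_filter.mp hi).2
      simp only [List.mem_cons, List.not_mem_nil, or_false, not_or] at hn
      have hlt4 : f 4 < f 5 := hmono (by decide)
      have hlt : f i < f 4 := hmono hi4
      exact g i 4 hi4 (by decide) (by rw [← h5]; exact hlt4.ne)
        (by rw [← h5]; exact (hlt.trans hlt4).ne) hn.1 hn.2.1 hn.2.2
    · obtain ⟨i, hi, hn⟩ := pig (Finset.univ.filter (fun i : Fin 9 => i < 5))
        [|f 6 + f 7 - f 8|, |f 5 + f 7 - f 8|, |f 5 + f 6 - f 8|, |f 5 + f 6 - f 7|] (by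
          simp only [List.length_cons, List.length_nil]; decide)
      have hi5 : i < 5 := (Finset.mem_filter.mp hi).2
      simp only [List.mem_cons, List.not_mem_nil, or_false, not_or] at hn
      exact g i 5 hi5 (by decide) h5 hn.1 hn.2.1 hn.2.2.1 hn.2.2.2

end Pool.Agent.Helper82.FC
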