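import Mathlib
import Pool.Agent.Helper82.FC.Core
import Pool.Agent.Helper82.FC.Small
import Pool.Agent.Helper82.FC.Bal

set_option autoImplicit false
set_option maxHeartbeats 1000000

namespace Pool.Agent.Helper82.FC

open Finset Pool.Agent.Helper8.Diss

/-- `a` and `b` are odd-commensurable: `r * a = s * b` for odd integers `r`, `s` -/
def OddComm (a b : ℝ) : Prop :=
  ∃ r s : ℤ, ¬ (2 : ℤ) ∣ r ∧ ¬ (2 : ℤ) ∣ s ∧ (r : ℝ) * a = (s : ℝ) * b

/-- number, up to sign, of the elements of `A` that are odd-commensurable with `a` -/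
noncomputable def classCard (A : Finset ℝ) (a : ℝ) : ℕ :=
  {x : ℝ | ∃ b ∈ A, OddComm a b ∧ x = |b|}.ncard

/-- number, up to sign, of the nonzero elements of `A` -/
noncomputable def absCard (A : Finset ℝ) : ℕ := {x : ℝ | ∃ b ∈ A, b ≠ 0 ∧ x = |b|}.ncard

/-- the class of `a` in `A` contains a dissociated set `B` with `2 |class| ≤ 2 ^ (|B| + ℓ)` -/
def ClassLoss (A : Finset ℝ) (a : ℝ) (ℓ : ℕ) : Prop :=
  ∃ B ⊆ A, (∀ b ∈ B, OddComm a b) ∧ AddDissociated (B : Set ℝ) ∧
    2 * classCard A a ≤ 2 ^ (B.card + ℓ)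

/-- no relation with coefficients in `{-1, 0, 1}` -/
def DissR (B : Finset ℝ) : Prop :=
  ∀ ε : ℝ → ℤ, (∀ i ∈ B, |ε i| ≤ 1) → ∑ i ∈ B, (ε i : ℝ) * i = 0 → ∀ i ∈ B, ε i = 0

lemma DissR.addDissociated {B : Finset ℝ} (h : DissR B) : AddDissociated (B : Set ℝ) := by
  classical
  intro t ht u hu htu
  have htB : t ⊆ B := by exact_mod_cast ht
  have huB : u ⊆ B := by exact_mod_cast hu
  have h1 := h (fun a => (if a ∈ t then 1 else 0) - (if a ∈ u then 1 else 0)) (by
    intro a _
    by_cases h1 : a ∈ t <;> by_cases h2 : a ∈ u <;> simp [h1, h2]) (by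
    have ht' : ∑ a ∈ B, (if a ∈ t then (1 : ℝ) else 0) * a = ∑ a ∈ t, a := by
      rw [← Finset.sum_subset htB]
      · apply Finset.sum_congr rfl
        intro a ha
        rw [if_pos ha, one_mul]
      · intro a _ ha
        rw [if_neg ha, zero_mul]
    have hu' : ∑ a ∈ B, (if a ∈ u then (1 : ℝ) else 0) * a = ∑ a ∈ u, a := by
      rw [← Finset.sum_subset huB]
      · apply Finset.sum_congr rfl
        intro a ha
        rw [if_pos ha, one_mul]
      · intro a _ ha
        rw [if_neg ha, zero_mul]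
    have htu' : ∑ a ∈ t, a = ∑ a ∈ u, a := htu
    push_cast
    simp only [sub_mul, Finset.sum_sub_distrib]
    rw [ht', hu', htu', sub_self])
  ext a
  constructor
  · intro ha
    by_contra hau
    have := h1 a (htB ha)
    simp [ha, hau] at this
  · intro ha
    by_contra hat
    have := h1 a (huB ha)
    simp [ha, hat] at this

lemma dissR_of_addDissociated {B : Finset ℝ} (h : AddDissociated (B : Set ℝ)) : DissR B := by
  classical
  intro ε hε hsum
  -- positive and negative part
  set t := B.filter (fun i => ε i = 1) with ht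
  set u := B.filter (fun i => ε i = -1) with hu
  have htri : ∀ i ∈ B, ε i = -1 ∨ ε i = 0 ∨ ε i = 1 := fun i hi => tri (hε i hi)
  have hs : ∑ i ∈ B, (ε i : ℝ) * i = ∑ i ∈ t, i - ∑ i ∈ u, i := by
    rw [ht, hu, Finset.sum_filter, Finset.sum_filter, ← Finset.sum_sub_distrib]
    apply Finset.sum_congr rfl
    intro i hi
    rcases htri i hi with h | h | h <;> rw [h] <;> norm_num
  rw [hs] at hsum
  have h1 : t = u := by
    apply h
    · exact_mod_cast Finset.filter_subset _ _
    · exact_mod_cast Finset.filter_subset _ _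
    · show ∑ i ∈ t, i = ∑ i ∈ u, i
      linarith
  intro i hi
  rcases htri i hi with h2 | h2 | h2
  · exfalso
    have : i ∈ u := Finset.mem_filter.mpr ⟨hi, h2⟩
    rw [← h1] at this
    have := (Finset.mem_filter.mp this).2
    omega
  · exact h2
  · exfalso
    have : i ∈ t := Finset.mem_filter.mpr ⟨hi, h2⟩
    rw [h1] at this
    have := (Finset.mem_filter.mp this).2
    omega

/-- two systems of integer weights for a finite set of reals; parallel weights only for
commensurable elements -/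
lemma exists_weights2 (S : Finset ℝ) (h0 : ∀ a ∈ S, a ≠ 0) :
    ∃ u w : ℝ → ℤ, (∀ a ∈ S, u a ≠ 0) ∧
      (∀ ε : ℝ → ℤ, ∀ B ⊆ S, ∑ a ∈ B, (ε a : ℝ) * a = 0 →
        ∑ a ∈ B, ε a * u a = 0 ∧ ∑ a ∈ B, ε a * w a = 0) ∧
      ∀ a ∈ S, ∀ b ∈ S, X u w a b = 0 → (u a : ℝ) * b = (u b : ℝ) * a := by
  classical
  obtain ⟨f, hf⟩ := Module.exists_dual_forall_apply_ne_zero (K := ℚ) (fun x : S => (x : ℝ))
    (fun x => h0 x x.2)
  have hfS : ∀ a ∈ S, f a ≠ 0 := fun a ha => hf ⟨a, ha⟩
  set G : Finset ℝ := ((S ×ˢ S).image (fun p => f p.1 • p.2 - f p.2 • p.1)).erase 0 with hG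
  obtain ⟨g, hg⟩ := Module.exists_dual_forall_apply_ne_zero (K := ℚ) (fun x : G => (x : ℝ))
    (fun x => (Finset.mem_erase.mp x.2).1)
  have hgS : ∀ a ∈ S, ∀ b ∈ S, f a • b - f b • a ≠ 0 → g (f a • b - f b • a) ≠ 0 :=
    fun a ha b hb hab => hg ⟨f a • b - f b • a, by
      rw [hG, Finset.mem_erase]
      exact ⟨hab, Finset.mem_image.mpr ⟨(a, b), Finset.mem_product.mpr ⟨ha, hb⟩, rfl⟩⟩⟩
  set D : ℕ := (∏ a ∈ S, (f a).den) * ∏ a ∈ S, (g a).den with hD
  have hDpos : D ≠ 0 := by
    rw [hD]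
    apply mul_ne_zero
    · exact Finset.prod_ne_zero_iff.mpr (fun a _ => (f a).den_nz)
    · exact Finset.prod_ne_zero_iff.mpr (fun a _ => (g a).den_nz)
  have hD0 : (D : ℚ) ≠ 0 := by exact_mod_cast hDpos
  have key : ∀ q : ℚ, q.den ∣ D → ((q * D).num : ℚ) = q * D := by
    intro q hq
    rw [Rat.coe_int_num_of_den_eq_one]
    obtain ⟨e, he⟩ := hq
    have : q * D = ((q.num * e : ℤ) : ℚ) := by
      rw [he]
      push_cast
      rw [← mul_assoc, Rat.mul_den_eq_num]
    rw [this]
    exact Rat.den_intCast _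
  have hu : ∀ a ∈ S, ((f a * D).num : ℚ) = f a * D := fun a ha =>
    key _ (Dvd.dvd.mul_right (Finset.dvd_prod_of_mem (fun a => (f a).den) ha) _)
  have hw : ∀ a ∈ S, ((g a * D).num : ℚ) = g a * D := fun a ha =>
    key _ (Dvd.dvd.mul_left (Finset.dvd_prod_of_mem (fun a => (g a).den) ha) _)
  refine ⟨fun a => (f a * D).num, fun a => (g a * D).num, ?_, ?_, ?_⟩
  · intro a ha h
    have h1 := hu a ha
    have h2 : (f a * D).num = 0 := h
    rw [h2] at h1
    have : f a * D ≠ 0 := mul_ne_zero (hfS a ha) hD0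
    exact this (by rw [← h1]; simp)
  · intro ε B hB hsum
    have lin : ∀ φ : Module.Dual ℚ ℝ, ∑ a ∈ B, (ε a : ℚ) * φ a = 0 := by
      intro φ
      have h1 : φ (∑ a ∈ B, (ε a : ℝ) * a) = ∑ a ∈ B, (ε a : ℚ) * φ a := by
        rw [map_sum]
        apply Finset.sum_congr rfl
        intro a _
        have : (ε a : ℝ) * a = (ε a : ℚ) • a := by
          rw [Rat.smul_def]
          push_cast
          ring
        rw [this, map_smul, smul_eq_mul]
      rw [← h1, hsum, map_zero]
    constructor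
    · have h2 : ((∑ a ∈ B, ε a * (f a * D).num : ℤ) : ℚ) = 0 := by
        push_cast
        rw [Finset.sum_congr rfl (g := fun a => (ε a : ℚ) * f a * D)]
        · rw [← Finset.sum_mul, lin f, zero_mul]
        · intro a ha
          rw [hu a (hB ha)]
          ring
      exact_mod_cast h2
    · have h2 : ((∑ a ∈ B, ε a * (g a * D).num : ℤ) : ℚ) = 0 := by
        push_cast
        rw [Finset.sum_congr rfl (g := fun a => (ε a : ℚ) * g a * D)]
        · rw [← Finset.sum_mul, lin g, zero_mul]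
        · intro a ha
          rw [hw a (hB ha)]
          ring
      exact_mod_cast h2
  · intro a ha b hb h
    unfold X at h
    have h1 : ((g a * D).num : ℚ) * (f b * D).num - (g b * D).num * (f a * D).num = 0 := by
      exact_mod_cast h
    rw [hu a ha, hu b hb, hw a ha, hw b hb] at h1
    have h2 : g a * f b - g b * f a = 0 := by
      have : (g a * f b - g b * f a) * (D * D) = 0 := by linear_combination h1
      rcases mul_eq_zero.mp this with h | h
      · exact h
      · exact absurd h (mul_ne_zero hD0 hD0)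
    have h3 : f a • b - f b • a = 0 := by
      by_contra hne
      apply hgS a ha b hb hne
      rw [map_sub, map_smul, map_smul, smul_eq_mul, smul_eq_mul]
      linear_combination -h2
    have h4 : (f a : ℝ) * b = (f b : ℝ) * a := by
      have := sub_eq_zero.mp h3
      rwa [Rat.smul_def, Rat.smul_def] at this
    have h5 : (((f a * D).num : ℤ) : ℝ) = (f a : ℝ) * D := by
      have := hu a ha
      exact_mod_cast congrArg (fun q : ℚ => (q : ℝ)) this
    have h6 : (((f b * D).num : ℤ) : ℝ) = (f b : ℝ) * D := by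
      have := hu b hb
      exact_mod_cast congrArg (fun q : ℚ => (q : ℝ)) this
    rw [h5, h6]
    linear_combination (D : ℝ) * h4

/-- representatives up to sign -/
lemma exists_reps (A : Finset ℝ) : ∃ S ⊆ A, (∀ a ∈ S, a ≠ 0) ∧
    (∀ a ∈ S, ∀ b ∈ S, |a| = |b| → a = b) ∧ (∀ a ∈ A, a ≠ 0 → a ∈ S ∨ -a ∈ S) := by
  classical
  refine ⟨A.filter (fun a => 0 < a ∨ (a < 0 ∧ -a ∉ A)), Finset.filter_subset _ _, ?_, ?_, ?_⟩
  · intro a ha h
    have := (Finset.mem_filter.mp ha).2
    rw [h] at this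
    rcases this with h | h
    · exact lt_irrefl _ h
    · exact lt_irrefl _ h.1
  · intro a ha b hb hab
    obtain ⟨haA, ha2⟩ := Finset.mem_filter.mp ha
    obtain ⟨hbA, hb2⟩ := Finset.mem_filter.mp hb
    rcases abs_eq_abs.mp hab with h | h
    · exact h
    · rcases ha2 with h1 | h1 <;> rcases hb2 with h2 | h2
      · linarith
      · exact absurd (by rw [← h]; exact haA) h2.2
      · exact absurd (by rw [h, neg_neg]; exact hbA) h1.2
      · linarith [h1.1, h2.1]
  · intro a ha h0
    rcases lt_or_gt_of_ne h0 with h | h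
    · by_cases h1 : -a ∈ A
      · right
        exact Finset.mem_filter.mpr ⟨h1, Or.inl (by linarith)⟩
      · left
        exact Finset.mem_filter.mpr ⟨ha, Or.inr ⟨h, h1⟩⟩
    · left
      exact Finset.mem_filter.mpr ⟨ha, Or.inl h⟩

end Pool.Agent.Helper82.FC
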