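import Mathlib
import Pool.Agent.Helper82.FC.Real

set_option autoImplicit false
set_option maxHeartbeats 1000000

namespace Pool.Agent.Helper82.FC

open Finset Pool.Agent.Helper8.Diss

lemma OddComm.neg {a b : ℝ} (h : OddComm a b) : OddComm a (-b) := by
  obtain ⟨r, s, hr, hs, h⟩ := h
  refine ⟨-r, s, fun h' => hr ((dvd_neg).mp h'), hs, ?_⟩
  push_cast
  linarith

lemma OddComm.ne_zero {a b : ℝ} (h : OddComm a b) (ha : a ≠ 0) : b ≠ 0 := by
  rintro rfl
  obtain ⟨r, s, hr, hs, h⟩ := h
  rw [mul_zero] at h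
  rcases mul_eq_zero.mp h with h | h
  · apply hr
    have : r = 0 := by exact_mod_cast h
    rw [this]
    exact dvd_zero _
  · exact ha h

lemma class_finite (A : Finset ℝ) (a : ℝ) : {x : ℝ | ∃ b ∈ A, OddComm a b ∧ x = |b|}.Finite := by
  classical
  apply (A.image (fun x => |x|)).finite_toSet.subset
  rintro x ⟨b, hb, -, rfl⟩
  simp only [Finset.coe_image, Set.mem_image, Finset.mem_coe]
  exact ⟨b, hb, rfl⟩

lemma class_eq (A S : Finset ℝ) (hSA : S ⊆ A) (habs : ∀ a ∈ S, ∀ b ∈ S, |a| = |b| → a = b)
    (hrep : ∀ a ∈ A, a ≠ 0 → a ∈ S ∨ -a ∈ S) (a : ℝ) (ha : a ≠ 0) (C : Finset ℝ)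
    (hC : ∀ b, b ∈ C ↔ b ∈ S ∧ OddComm a b) : classCard A a = C.card := by
  classical
  have h1 : {x : ℝ | ∃ b ∈ A, OddComm a b ∧ x = |b|} = ((C.image (fun x => |x|) : Finset ℝ) :
      Set ℝ) := by
    ext x
    simp only [Set.mem_ofPred_eq, Finset.coe_image, Set.mem_image, Finset.mem_coe]
    constructor
    · rintro ⟨b, hb, hab, rfl⟩
      rcases hrep b hb (hab.ne_zero ha) with h | h
      · exact ⟨b, (hC b).mpr ⟨h, hab⟩, rfl⟩
      · exact ⟨-b, (hC _).mpr ⟨h, hab.neg⟩, abs_neg b⟩
    · rintro ⟨b, hb, rfl⟩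
      obtain ⟨h1, h2⟩ := (hC b).mp hb
      exact ⟨b, hSA h1, h2, rfl⟩
  unfold classCard
  rw [h1, Set.ncard_coe_finset, Finset.card_image_of_injOn]
  intro x hx y hy hxy
  exact habs x ((hC x).mp hx).1 y ((hC y).mp hy).1 hxy

lemma abs_eq' (A S : Finset ℝ) (hSA : S ⊆ A) (h0 : ∀ a ∈ S, a ≠ 0)
    (habs : ∀ a ∈ S, ∀ b ∈ S, |a| = |b| → a = b)
    (hrep : ∀ a ∈ A, a ≠ 0 → a ∈ S ∨ -a ∈ S) : absCard A = S.card := by
  classical
  have h1 : {x : ℝ | ∃ b ∈ A, b ≠ 0 ∧ x = |b|} = ((S.image (fun x => |x|) : Finset ℝ) :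
      Set ℝ) := by
    ext x
    simp only [Set.mem_ofPred_eq, Finset.coe_image, Set.mem_image, Finset.mem_coe]
    constructor
    · rintro ⟨b, hb, hb0, rfl⟩
      rcases hrep b hb hb0 with h | h
      · exact ⟨b, h, rfl⟩
      · exact ⟨-b, h, abs_neg b⟩
    · rintro ⟨b, hb, rfl⟩
      exact ⟨b, hSA hb, h0 b hb, rfl⟩
  unfold absCard
  rw [h1, Set.ncard_coe_finset, Finset.card_image_of_injOn]
  intro x hx y hy hxy
  exact habs x hx y hy hxy

lemma card_le_reps (A S : Finset ℝ)
    (hrep : ∀ a ∈ A, a ≠ 0 → a ∈ S ∨ -a ∈ S) : A.card ≤ 2 * S.card + 1 := by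
  classical
  have hcov : A ⊆ insert 0 (S ∪ S.image (fun x => -x)) := by
    intro a ha
    by_cases h0 : a = 0
    · rw [h0]; exact Finset.mem_insert_self _ _
    · apply Finset.mem_insert_of_mem
      rcases hrep a ha h0 with h | h
      · exact Finset.mem_union_left _ h
      · exact Finset.mem_union_right _ (Finset.mem_image.mpr ⟨-a, h, neg_neg a⟩)
  calc A.card ≤ (insert 0 (S ∪ S.image (fun x => -x))).card := Finset.card_le_card hcov
    _ ≤ (S ∪ S.image (fun x => -x)).card + 1 := Finset.card_insert_le _ _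
    _ ≤ 2 * S.card + 1 := by
        have h1 := Finset.card_union_le S (S.image (fun x => -x))
        have h2 := Finset.card_image_le (s := S) (f := fun x => -x)
        omega

/-- move a dissociated set to the representatives -/
lemma rep_transfer (A S : Finset ℝ) (hrep : ∀ a ∈ A, a ≠ 0 → a ∈ S ∨ -a ∈ S)
    (B : Finset ℝ) (hBA : B ⊆ A) (hB : DissR B) :
    ∃ B' ⊆ S, B'.card = B.card ∧ DissR B' ∧ ∀ x ∈ B', x ∈ B ∨ -x ∈ B := by
  classical
  have hne : ∀ b ∈ B, b ≠ 0 := by
    rintro b hb rfl
    have := hB (fun i => if i = 0 then 1 else 0) (by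
      intro i _
      by_cases h : i = 0 <;> simp [h]) (by
      apply Finset.sum_eq_zero
      intro i _
      by_cases h : i = 0 <;> simp [h]) 0 hb
    simp at this
  have hsg : ∀ b : ℝ, ∃ e : ℤ, (e = 1 ∨ e = -1) ∧ (b ∈ B → (e : ℝ) * b ∈ S) := by
    intro b
    by_cases hb : b ∈ B
    · rcases hrep b (hBA hb) (hne b hb) with h | h
      · exact ⟨1, Or.inl rfl, fun _ => by simpa using h⟩
      · exact ⟨-1, Or.inr rfl, fun _ => by simpa using h⟩
    · exact ⟨1, Or.inl rfl, fun h => absurd h hb⟩
  choose e he heS using hsg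
  have hinj : Set.InjOn (fun b => (e b : ℝ) * b) B := by
    intro x hx y hy hxy
    by_contra hne'
    have hxy' : (e x : ℝ) * x = (e y : ℝ) * y := hxy
    have h1 := hB (fun i => if i = x then e x else if i = y then - e y else 0) (by
      intro i _
      by_cases h : i = x
      · rcases he x with h' | h' <;> simp [h, h']
      · by_cases h2 : i = y
        · rcases he y with h' | h' <;> simp [h2, Ne.symm hne', h']
        · simp [h, h2]) (by
      rw [← Finset.sum_subset (s₁ := {x, y})]
      · rw [Finset.sum_pair hne']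
        simp only [if_true, Ne.symm hne', if_false]
        push_cast
        linarith
      · intro i hi
        rcases Finset.mem_insert.mp hi with rfl | hi
        · exact hx
        · rw [Finset.mem_singleton.mp hi]
          exact hy
      · intro i _ hi
        have h1 : i ≠ x := fun h => hi (by rw [h]; simp)
        have h2 : i ≠ y := fun h => hi (by rw [h]; simp)
        simp [h1, h2]) x hx
    simp only [if_true] at h1
    rcases he x with h' | h' <;> rw [h'] at h1 <;> norm_num at h1
  refine ⟨B.image (fun b => (e b : ℝ) * b), ?_, Finset.card_image_of_injOn hinj, ?_, ?_⟩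
  · intro x hx
    obtain ⟨b, hb, rfl⟩ := Finset.mem_image.mp hx
    exact heS b hb
  · intro ε hε hsum x hx
    obtain ⟨b, hb, rfl⟩ := Finset.mem_image.mp hx
    rw [Finset.sum_image (fun a ha b hb hab => hinj ha hb hab)] at hsum
    have h1 := hB (fun b => ε ((e b : ℝ) * b) * e b) (by
      intro i hi
      have h2 := hε _ (Finset.mem_image_of_mem (fun b => (e b : ℝ) * b) hi)
      rcases he i with h' | h' <;> rw [abs_mul, h'] <;> rw [h'] at h2 <;> simpa using h2) (by
      rw [← hsum]
      apply Finset.sum_congr rfl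
      intro i _
      push_cast
      ring) b hb
    rcases mul_eq_zero.mp h1 with h2 | h2
    · exact h2
    · exfalso
      rcases he b with h' | h' <;> rw [h'] at h2 <;> norm_num at h2
  · intro x hx
    obtain ⟨b, hb, rfl⟩ := Finset.mem_image.mp hx
    rcases he b with h' | h' <;> simp only [h']
    · left; simpa using hb
    · right; simpa using hb

/-- the local-global principle -/
theorem local_global (A : Finset ℝ) (ℓ : ℕ) (h : ∀ a ∈ A, a ≠ 0 → ClassLoss A a ℓ) :
    ∃ B ⊆ A, absCard A < 2 ^ (B.card + ℓ) ∧ Nat.log 2 A.card ≤ B.card + ℓ ∧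
      AddDissociated (B : Set ℝ) := by
  classical
  obtain ⟨S, hSA, h0, habs, hrep⟩ := exists_reps A
  have hcardA := card_le_reps A S hrep
  have habsA := abs_eq' A S hSA h0 habs hrep
  have hlog : ∀ k : ℕ, S.card < 2 ^ k → Nat.log 2 A.card ≤ k := by
    intro k hk
    have : A.card < 2 ^ (k + 1) := by rw [pow_succ]; omega
    have := Nat.log_lt_of_lt_pow' (by omega) this
    omega
  rcases S.eq_empty_or_nonempty with hS | hS
  · refine ⟨∅, Finset.empty_subset _, ?_, ?_, ?_⟩
    · rw [habsA, hS]; simp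
    · exact hlog _ (by rw [hS]; simp)
    · apply DissR.addDissociated
      intro ε _ _ i hi
      simp at hi
  obtain ⟨u, w, hu0, hrel, hpar⟩ := exists_weights2 S h0
  have hSpos : S.card ≠ 0 := (Finset.card_pos.mpr hS).ne'
  obtain ⟨B, hBS, hBc, hBD⟩ := full_lemma u w ℓ (Nat.log 2 S.card) S hu0 (by
    intro T hTS ⟨v, hv⟩ hline hsat m hm
    have hTne : T.Nonempty := by
      rw [← Finset.card_pos]
      have := Nat.one_le_two_pow (n := m)
      omega
    obtain ⟨a, haT⟩ := hTne
    have haS := hTS haT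
    have ha0 := h0 a haS
    obtain ⟨B₀, hB₀A, hB₀c, hB₀D, hB₀card⟩ := h a (hSA haS) ha0
    obtain ⟨B₁, hB₁S, hB₁card, hB₁D, hB₁⟩ := rep_transfer A S hrep B₀ hB₀A
      (dissR_of_addDissociated hB₀D)
    have hB₁T : B₁ ⊆ T := by
      intro x hx
      have hxS := hB₁S hx
      have hax : OddComm a x := by
        rcases hB₁ x hx with h | h
        · exact hB₀c x h
        · have := (hB₀c _ h).neg
          rwa [neg_neg] at this
      by_cases hxa : x = a
      · rw [hxa]; exact haT
      obtain ⟨r, s, hr, hs, hrs⟩ := hax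
      have h1 := hrel (fun y => if y = a then r else -s) {a, x} (by
        intro y hy
        rcases Finset.mem_insert.mp hy with rfl | hy
        · exact haS
        · rw [Finset.mem_singleton.mp hy]
          exact hxS) (by
        rw [Finset.sum_pair (Ne.symm hxa)]
        simp only [if_true, hxa, if_false]
        push_cast
        linarith)
      rw [Finset.sum_pair (Ne.symm hxa), Finset.sum_pair (Ne.symm hxa)] at h1
      simp only [if_true, hxa, if_false] at h1
      obtain ⟨h2, h3⟩ := h1
      have hs0 : s ≠ 0 := by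
        intro h
        apply hs
        rw [h]
        exact dvd_zero _
      apply hsat a haT x hxS
      · have : s * X u w a x = 0 := by
          unfold X
          linear_combination (-w a) * h2 + u a * h3
        rcases mul_eq_zero.mp this with h | h
        · exact absurd h hs0
        · exact h
      · intro v
        have h4 : r * u a = s * u x := by linarith
        constructor
        · intro h5
          apply two_pow_dvd_of_mul hs
          rw [← h4]
          exact dvd_mul_of_dvd_right h5 _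
        · intro h5
          apply two_pow_dvd_of_mul hr
          rw [h4]
          exact dvd_mul_of_dvd_right h5 _
    refine ⟨B₁, hB₁T, ?_, ?_⟩
    · show m + 1 ≤ B₁.card + ℓ
      have hTc : T.card ≤ classCard A a := by
        rw [class_eq A S hSA habs hrep a ha0 (S.filter (fun b => OddComm a b)) (by
          intro b; rw [Finset.mem_filter])]
        apply Finset.card_le_card
        intro x hx
        rw [Finset.mem_filter]
        refine ⟨hTS hx, ?_⟩
        have h1 := hpar a haS x (hTS hx) (hline a haT x hx)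
        obtain ⟨⟨α, hα⟩, hα2⟩ := hv a haT
        obtain ⟨⟨β, hβ⟩, hβ2⟩ := hv x hx
        refine ⟨β, α, ?_, ?_, ?_⟩
        · rintro ⟨e, rfl⟩
          exact hβ2 ⟨e, by rw [hβ]; ring⟩
        · rintro ⟨e, rfl⟩
          exact hα2 ⟨e, by rw [hα]; ring⟩
        · rw [hα, hβ] at h1
          push_cast at h1
          have h2 : (2 : ℝ) ^ v ≠ 0 := by positivity
          have h3 : (2 : ℝ) ^ v * ((β : ℝ) * a - α * x) = 0 := by linarith
          rcases mul_eq_zero.mp h3 with h | h
          · exact absurd h h2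
          · linarith
      have h1 : 2 ^ m < 2 ^ (B₁.card + ℓ) := by rw [hB₁card]; omega
      exact (Nat.pow_lt_pow_iff_right (by norm_num)).mp h1
    · intro ε hε hsu _
      apply hB₁D ε hε
      have hua : (u a : ℝ) ≠ 0 := by exact_mod_cast hu0 a haS
      have h1 : (u a : ℝ) * ∑ i ∈ B₁, (ε i : ℝ) * i = a * ((∑ i ∈ B₁, ε i * u i : ℤ) : ℝ) := by
        push_cast
        rw [Finset.mul_sum, Finset.mul_sum]
        apply Finset.sum_congr rfl
        intro i hi
        have h2 := hpar a haS i (hB₁S hi) (hline a haT i (hB₁T hi))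
        linear_combination (ε i : ℝ) * h2
      rw [hsu, Int.cast_zero, mul_zero] at h1
      rcases mul_eq_zero.mp h1 with h | h
      · exact absurd h hua
      · exact h) (Nat.pow_log_le_self 2 hSpos)
  have hlt : S.card < 2 ^ (B.card + ℓ) := by
    refine lt_of_lt_of_le (Nat.lt_pow_succ_log_self (b := 2) (by norm_num) S.card) ?_
    exact Nat.pow_le_pow_right (by norm_num) hBc
  refine ⟨B, hBS.trans hSA, by rw [habsA]; exact hlt, hlog _ hlt, ?_⟩
  apply DissR.addDissociated
  intro ε hε hsum
  obtain ⟨h1, h2⟩ := hrel ε B hBS hsum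
  exact hBD ε hε h1 h2

end Pool.Agent.Helper82.FC
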