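import Mathlib
import Pool.Agent.Helper82.FC.Main

set_option autoImplicit false
set_option maxHeartbeats 1000000

namespace Pool.Agent.Helper82.FC

open Finset Pool.Agent.Helper8.Diss

lemma odd_prod {ι : Type*} (s : Finset ι) (f : ι → ℤ) (h : ∀ i ∈ s, ¬ (2 : ℤ) ∣ f i) :
    ¬ (2 : ℤ) ∣ ∏ i ∈ s, f i := by
  rw [Prime.dvd_finsetProd_iff Int.prime_two]
  rintro ⟨i, hi, h'⟩
  exact h i hi h'

/-- a class consists of odd multiples of one real number -/
lemma class_weights (C : Finset ℝ) (a : ℝ) (ha : a ≠ 0) (h : ∀ b ∈ C, OddComm a b) :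
    ∃ (u : ℝ → ℤ) (c : ℝ), c ≠ 0 ∧ ∀ b ∈ C, ¬ (2 : ℤ) ∣ u b ∧ b = c * u b := by
  classical
  have hex : ∀ b : ℝ, ∃ p : ℤ × ℤ, b ∈ C → (¬ (2 : ℤ) ∣ p.1 ∧ ¬ (2 : ℤ) ∣ p.2 ∧
      (p.1 : ℝ) * a = (p.2 : ℝ) * b) := by
    intro b
    by_cases hb : b ∈ C
    · obtain ⟨r, s, hr, hs, hrs⟩ := h b hb
      exact ⟨(r, s), fun _ => ⟨hr, hs, hrs⟩⟩
    · exact ⟨(0, 0), fun h => absurd h hb⟩
  choose p hp using hex
  have hN : ¬ (2 : ℤ) ∣ ∏ b ∈ C, (p b).2 := odd_prod C _ (fun b hb => (hp b hb).2.1)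
  have hN0 : ((∏ b ∈ C, (p b).2 : ℤ) : ℝ) ≠ 0 := by
    intro h0
    apply hN
    have : ∏ b ∈ C, (p b).2 = 0 := by exact_mod_cast h0
    rw [this]
    exact dvd_zero _
  refine ⟨fun b => (p b).1 * ∏ b' ∈ C.erase b, (p b').2, a / ((∏ b ∈ C, (p b).2 : ℤ) : ℝ),
    div_ne_zero ha hN0, ?_⟩
  intro b hb
  obtain ⟨h1, h2, h3⟩ := hp b hb
  constructor
  · intro h4
    rcases Int.prime_two.dvd_or_dvd h4 with h5 | h5
    · exact h1 h5
    · exact odd_prod _ _ (fun b' hb' => (hp b' (Finset.mem_of_mem_erase hb')).2.1) h5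
  · rw [div_mul_eq_mul_div, eq_div_iff hN0, ← Finset.mul_prod_erase C _ hb]
    push_cast
    linear_combination -(∏ b' ∈ C.erase b, ((p b').2 : ℝ)) * h3

lemma DissF_of_abs {ι : Type*} [DecidableEq ι] (B : Finset ι) (u : ι → ℤ)
    (h0 : ∀ i ∈ B, u i ≠ 0) (h : DissF B (fun i => |u i|)) : DissF B u := by
  intro ε hε hsum i hi
  have h1 := h (fun j => ε j * (u j).sign) (by
    intro j hj
    have h3 : |(u j).sign| = 1 := by
      rcases lt_or_gt_of_ne (h0 j hj) with h | h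
      · rw [Int.sign_eq_neg_one_of_neg h]; norm_num
      · rw [Int.sign_eq_one_of_pos h]; norm_num
    rw [abs_mul, h3, mul_one]
    exact hε j hj) (by
    rw [← hsum]
    apply Finset.sum_congr rfl
    intro j hj
    have h4 : (u j).sign * |u j| = u j := by
      rcases lt_or_gt_of_ne (h0 j hj) with h | h
      · rw [Int.sign_eq_neg_one_of_neg h, abs_of_neg h]; ring
      · rw [Int.sign_eq_one_of_pos h, abs_of_pos h]; ring
    show ε j * (u j).sign * |u j| = ε j * u j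
    rw [mul_assoc, h4]) i hi
  rcases mul_eq_zero.mp h1 with h2 | h2
  · exact h2
  · exact absurd (Int.sign_eq_zero_iff_zero.mp h2) (h0 i hi)

/-- sign changes of the weights do not matter -/
lemma DissF_of_sign {ι : Type*} [DecidableEq ι] (B : Finset ι) (u w : ι → ℤ)
    (hw : ∀ i ∈ B, w i = u i ∨ w i = - u i) (h : DissF B w) : DissF B u := by
  classical
  intro ε hε hsum i hi
  have h1 := h (fun j => if w j = u j then ε j else - ε j) (by
    intro j hj
    by_cases h' : w j = u j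
    · simpa [h'] using hε j hj
    · simpa [h'] using hε j hj) (by
    rw [← hsum]
    apply Finset.sum_congr rfl
    intro j hj
    by_cases h' : w j = u j
    · simp [h']
    · have := (hw j hj).resolve_left h'
      simp only [h', if_false]
      rw [this]
      ring) i hi
  by_cases h' : w i = u i
  · simpa [h'] using h1
  · simpa [h'] using h1

/-- conclusion: from a dissociated set of integer weights to a good class -/
lemma classGood_of (A S : Finset ℝ) (hSA : S ⊆ A)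
    (habs : ∀ a ∈ S, ∀ b ∈ S, |a| = |b| → a = b)
    (hrep : ∀ a ∈ A, a ≠ 0 → a ∈ S ∨ -a ∈ S) (a : ℝ) (ha : a ≠ 0) (C : Finset ℝ)
    (hC : ∀ b, b ∈ C ↔ b ∈ S ∧ OddComm a b) (u : ℝ → ℤ) (c : ℝ)
    (hu : ∀ b ∈ C, b = c * u b) (m r : ℕ) (hm : C.card ≤ 2 ^ m)
    (hex : ∃ B ⊆ C, m + 1 ≤ B.card + r ∧ DissF B u) : ClassLoss A a r := by
  obtain ⟨B, hBC, hBc, hBD⟩ := hex
  refine ⟨B, fun x hx => hSA ((hC x).mp (hBC hx)).1, fun x hx => ((hC x).mp (hBC hx)).2, ?_, ?_⟩
  · apply DissR.addDissociated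
    intro ε hε hsum
    have hc : c * ((∑ i ∈ B, ε i * u i : ℤ) : ℝ) = 0 := by
      rw [← hsum]
      push_cast
      rw [Finset.mul_sum]
      apply Finset.sum_congr rfl
      intro i hi
      have h1 := hu i (hBC hi)
      linear_combination -(ε i : ℝ) * h1
    rcases mul_eq_zero.mp hc with h | h
    · -- then every element of the class is zero
      intro i hi
      exfalso
      have h1 := ((hC i).mp (hBC hi)).2.ne_zero ha
      apply h1
      rw [hu i (hBC hi), h, zero_mul]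
    · apply hBD ε hε
      exact_mod_cast h
  · rw [class_eq A S hSA habs hrep a ha C hC]
    calc 2 * C.card ≤ 2 * 2 ^ m := by omega
      _ = 2 ^ (m + 1) := by rw [pow_succ]; ring
      _ ≤ 2 ^ (B.card + r) := Nat.pow_le_pow_right (by norm_num) hBc

lemma clog_lt (n : ℕ) (hn : 0 < n) : 2 ^ Nat.clog 2 n < 2 * n := by
  rcases Nat.lt_or_ge 1 n with h | h
  · have h1 := Nat.pow_pred_clog_lt_self (b := 2) (by norm_num) h
    have h2 : 0 < Nat.clog 2 n := Nat.clog_pos (by norm_num) h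
    have h3 : 2 ^ Nat.clog 2 n = 2 * 2 ^ (Nat.clog 2 n).pred := by
      conv_lhs => rw [← Nat.succ_pred_eq_of_pos h2]
      rw [pow_succ]
      ring
    omega
  · have : n = 1 := by omega
    subst this
    simp

/-- set-up for the three kinds of good classes -/
lemma setup (A : Finset ℝ) (a : ℝ) (haA : a ∈ A) (ha : a ≠ 0) :
    ∃ S ⊆ A, (∀ a ∈ S, ∀ b ∈ S, |a| = |b| → a = b) ∧
      (∀ a ∈ A, a ≠ 0 → a ∈ S ∨ -a ∈ S) ∧ ∃ C : Finset ℝ, (∀ b, b ∈ C ↔ b ∈ S ∧ OddComm a b) ∧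
      0 < C.card ∧ classCard A a = C.card := by
  classical
  obtain ⟨S, hSA, h0, habs, hrep⟩ := exists_reps A
  refine ⟨S, hSA, habs, hrep, S.filter (fun b => OddComm a b), ?_, ?_, ?_⟩
  · intro b
    rw [Finset.mem_filter]
  · rw [Finset.card_pos]
    have hself : OddComm a a := ⟨1, 1, by norm_num, by norm_num, rfl⟩
    rcases hrep a haA ha with h | h
    · exact ⟨a, Finset.mem_filter.mpr ⟨h, hself⟩⟩
    · exact ⟨-a, Finset.mem_filter.mpr ⟨h, hself.neg⟩⟩
  · exact class_eq A S hSA habs hrep a ha _ (by intro b; rw [Finset.mem_filter])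

/-- classes with at most 16 elements are good -/
theorem good_small (A : Finset ℝ) (a : ℝ) (haA : a ∈ A) (ha : a ≠ 0)
    (h16 : classCard A a ≤ 16) : ClassLoss A a 0 := by
  classical
  obtain ⟨S, hSA, habs, hrep, C, hC, hCpos, hCc⟩ := setup A a haA ha
  obtain ⟨u, c, hc, hu⟩ := class_weights C a ha (fun b hb => ((hC b).mp hb).2)
  apply classGood_of A S hSA habs hrep a ha C hC u c (fun b hb => (hu b hb).2)
    (Nat.clog 2 C.card) 0 (Nat.le_pow_clog (by norm_num) _)
  apply odd_small C u (fun b hb => (hu b hb).1) _ (by rw [← hCc]; exact h16) _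
    (clog_lt _ hCpos)
  intro i hi j hj hij
  apply habs i ((hC i).mp hi).1 j ((hC j).mp hj).1
  rw [(hu i hi).2, (hu j hj).2, abs_mul, abs_mul]
  congr 1
  exact_mod_cast hij

/-- classes in a short interval are good -/
theorem good_narrow (A : Finset ℝ) (a : ℝ) (haA : a ∈ A) (ha : a ≠ 0)
    (hn : ∀ b ∈ A, ∀ c ∈ A, OddComm a b → OddComm a c →
      (Nat.clog 2 (classCard A a) : ℝ) * (|b| - |c|) < |c|) : ClassLoss A a 0 := by
  classical
  obtain ⟨S, hSA, habs, hrep, C, hC, hCpos, hCc⟩ := setup A a haA ha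
  obtain ⟨u, c, hc, hu⟩ := class_weights C a ha (fun b hb => ((hC b).mp hb).2)
  have h0 : ∀ b ∈ C, u b ≠ 0 := by
    intro b hb h
    apply (hu b hb).1
    rw [h]
    exact dvd_zero _
  apply classGood_of A S hSA habs hrep a ha C hC u c (fun b hb => (hu b hb).2)
    (Nat.clog 2 C.card) 0 (Nat.le_pow_clog (by norm_num) _)
  obtain ⟨B, hB, hBc, hBD⟩ := narrow_lemma C (fun b => |u b|) (by
    intro i hi j hj hij
    apply habs i ((hC i).mp hi).1 j ((hC j).mp hj).1
    rw [(hu i hi).2, (hu j hj).2, abs_mul, abs_mul]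
    congr 1
    exact_mod_cast hij) (fun i hi => abs_pos.mpr (h0 i hi)) (Nat.clog 2 C.card) (clog_lt _ hCpos) (by
    intro i hi j hj
    have h1 := hn i (hSA ((hC i).mp hi).1) j (hSA ((hC j).mp hj).1) ((hC i).mp hi).2
      ((hC j).mp hj).2
    have e1 : |i| = |c| * |(u i : ℝ)| := by rw [← abs_mul, ← (hu i hi).2]
    have e2 : |j| = |c| * |(u j : ℝ)| := by rw [← abs_mul, ← (hu j hj).2]
    rw [e1, e2, hCc] at h1
    have hcpos : 0 < |c| := abs_pos.mpr hc
    have h2 : |c| * ((Nat.clog 2 C.card : ℝ) * (|(u i : ℝ)| - |(u j : ℝ)|)) < |c| * |(u j : ℝ)| := by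
      linarith
    have h3 := lt_of_mul_lt_mul_left h2 hcpos.le
    exact_mod_cast h3)
  exact ⟨B, hB, hBc, DissF_of_abs B u (fun i hi => h0 i (hB hi)) hBD⟩

/-- classes in one residue class up to sign are good -/
theorem good_residue (A : Finset ℝ) (a : ℝ) (haA : a ∈ A) (ha : a ≠ 0) (g : ℝ) (q ρ : ℤ)
    (hq : (Nat.clog 2 (classCard A a) : ℤ) + 1 < q) (hco : IsCoprime q ρ)
    (hr : ∀ b ∈ A, OddComm a b → ∃ k : ℤ, b = g * k ∧ (q ∣ k - ρ ∨ q ∣ k + ρ)) :
    ClassLoss A a 0 := by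
  classical
  obtain ⟨S, hSA, habs, hrep, C, hC, hCpos, hCc⟩ := setup A a haA ha
  have hex : ∀ b : ℝ, ∃ k : ℤ, b ∈ C → (b = g * k ∧ (q ∣ k - ρ ∨ q ∣ k + ρ)) := by
    intro b
    by_cases hb : b ∈ C
    · obtain ⟨k, hk⟩ := hr b (hSA ((hC b).mp hb).1) ((hC b).mp hb).2
      exact ⟨k, fun _ => hk⟩
    · exact ⟨0, fun h => absurd h hb⟩
  choose k hk using hex
  apply classGood_of A S hSA habs hrep a ha C hC k g (fun b hb => (hk b hb).1)
    (Nat.clog 2 C.card) 0 (Nat.le_pow_clog (by norm_num) _)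
  set w : ℝ → ℤ := fun b => if q ∣ k b - ρ then k b else - k b with hw
  have hwk : ∀ b, w b = k b ∨ w b = - k b := by
    intro b
    by_cases h : q ∣ k b - ρ
    · left; simp [hw, h]
    · right; simp [hw, h]
  have hwabs : ∀ b, |w b| = |k b| := by
    intro b
    rcases hwk b with h | h <;> rw [h]
    rw [abs_neg]
  obtain ⟨B, hB, hBc, hBD⟩ := residue_lemma C w (by
    intro i hi j hj hij
    apply habs i ((hC i).mp hi).1 j ((hC j).mp hj).1
    have h1 : |k i| = |k j| := by rw [← hwabs, ← hwabs, hij]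
    rw [(hk i hi).1, (hk j hj).1, abs_mul, abs_mul]
    congr 1
    exact_mod_cast h1) (Nat.clog 2 C.card) (clog_lt _ hCpos) q ρ (by rw [← hCc]; exact hq) hco (by
    intro i hi
    by_cases h : q ∣ k i - ρ
    · simp [hw, h]
    · have h2 := (hk i hi).2.resolve_left h
      simp only [hw, h, if_false]
      have : - k i - ρ = -(k i + ρ) := by ring
      rw [this]
      exact dvd_neg.mpr h2)
  exact ⟨B, hB, hBc, DissF_of_sign B k w (fun i _ => hwk i) hBD⟩

/-- large classes: the loss is at most doubly logarithmic -/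
theorem good_loss (A : Finset ℝ) (a : ℝ) (haA : a ∈ A) (ha : a ≠ 0) (r : ℕ)
    (hr : Nat.clog 2 (classCard A a) + 1 < 2 ^ (r + 2) + r) : ClassLoss A a r := by
  classical
  obtain ⟨S, hSA, habs, hrep, C, hC, hCpos, hCc⟩ := setup A a haA ha
  obtain ⟨u, c, hc, hu⟩ := class_weights C a ha (fun b hb => ((hC b).mp hb).2)
  apply classGood_of A S hSA habs hrep a ha C hC u c (fun b hb => (hu b hb).2)
    (Nat.clog 2 C.card) r (Nat.le_pow_clog (by norm_num) _)
  set w : ℝ → ℤ := fun b => if (4 : ℤ) ∣ u b - 1 then u b else - u b with hw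
  have hwu : ∀ b, w b = u b ∨ w b = - u b := by
    intro b
    by_cases h : (4 : ℤ) ∣ u b - 1
    · left; simp [hw, h]
    · right; simp [hw, h]
  have hwabs : ∀ b, |w b| = |u b| := by
    intro b
    rcases hwu b with h | h <;> rw [h]
    rw [abs_neg]
  obtain ⟨B, hB, hBc, hBD⟩ := class_lemma C w (by
    intro i hi j hj hij
    apply habs i ((hC i).mp hi).1 j ((hC j).mp hj).1
    have h1 : |u i| = |u j| := by rw [← hwabs, ← hwabs, hij]
    rw [(hu i hi).2, (hu j hj).2, abs_mul, abs_mul]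
    congr 1
    exact_mod_cast h1) (by
    intro b hb
    have h1 := (hu b hb).1
    by_cases h : (4 : ℤ) ∣ u b - 1
    · simp [hw, h]
    · simp only [hw, h, if_false]
      omega) (Nat.clog 2 C.card) r (clog_lt _ hCpos) (by rw [← hCc]; exact hr)
  exact ⟨B, hB, hBc, DissF_of_sign B u w (fun i _ => hwu i) hBD⟩

/-- all sets with fewer than 64 elements -/
theorem lt_64 (A : Finset ℝ) (hA : A.card < 64) :
    ∃ B ⊆ A, Nat.log 2 A.card ≤ B.card ∧ AddDissociated (B : Set ℝ) := by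
  classical
  obtain ⟨S, hSA, h0, habs, hrep⟩ := exists_reps A
  have hcardA := card_le_reps A S hrep
  rcases Nat.eq_zero_or_pos (Nat.log 2 A.card) with hz | hpos
  · refine ⟨∅, Finset.empty_subset _, by omega, ?_⟩
    apply DissR.addDissociated
    intro ε _ _ i hi
    simp at hi
  obtain ⟨s, hs⟩ : ∃ s, Nat.log 2 A.card = s + 1 := ⟨Nat.log 2 A.card - 1, by omega⟩
  have hApos : A.card ≠ 0 := by
    intro h
    rw [h] at hpos
    simp at hpos
  have h1 : 2 ^ (s + 1) ≤ A.card := by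
    rw [← hs]
    exact Nat.pow_log_le_self 2 hApos
  have hs4 : s < 5 := by
    by_contra h
    have : 2 ^ 6 ≤ 2 ^ (s + 1) := Nat.pow_le_pow_right (by norm_num) (by omega)
    omega
  have h2 : 2 ^ s ≤ S.card := by rw [pow_succ] at h1; omega
  obtain ⟨S', hS', hS'c⟩ := Finset.exists_subset_card_eq h2
  have h16 : S'.card ≤ 16 := by
    rw [hS'c]
    calc 2 ^ s ≤ 2 ^ 4 := Nat.pow_le_pow_right (by norm_num) (by omega)
      _ = 16 := by norm_num
  have hrep' : ∀ a ∈ S', a ≠ 0 → a ∈ S' ∨ -a ∈ S' := fun a ha _ => Or.inl ha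
  have habs' : ∀ a ∈ S', ∀ b ∈ S', |a| = |b| → a = b :=
    fun a ha b hb => habs a (hS' ha) b (hS' hb)
  obtain ⟨B, hB, hBc, -, hBD⟩ := local_global S' 0 (by
    intro a ha ha0
    apply good_small S' a ha ha0
    rw [class_eq S' S' (Finset.Subset.refl _) habs' hrep' a ha0
      (S'.filter (fun b => OddComm a b)) (by intro b; rw [Finset.mem_filter])]
    exact (Finset.card_filter_le _ _).trans h16)
  rw [abs_eq' S' S' (Finset.Subset.refl _) (fun a ha => h0 a (hS' ha)) habs' hrep', hS'c] at hBc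
  refine ⟨B, (hB.trans hS').trans hSA, ?_, hBD⟩
  rw [hs]
  exact (Nat.pow_lt_pow_iff_right (by norm_num)).mp hBc

end Pool.Agent.Helper82.FC
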