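import Mathlib
import Pool.Agent.Helper82.FC.Good

set_option autoImplicit false

namespace Pool.Agent.Helper82.FC

/-- The class of `a` in `A` (all elements of `A` odd-commensurable with `a`) is tame with loss
`ℓ`: it contains a dissociated set `B` with `2 |class| ≤ 2 ^ (|B| + ℓ)`, or it has at most 16
elements up to sign, or at most `2 ^ c` elements with `c + 1 < 2 ^ (ℓ + 2) + ℓ`, or its absolute
values lie in a short interval, or it lies, up to sign, in one invertible residue class. -/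
def TameClass (A : Finset ℝ) (a : ℝ) (ℓ : ℕ) : Prop :=
  ClassLoss A a ℓ ∨
  classCard A a ≤ 16 ∨
  Nat.clog 2 (classCard A a) + 1 < 2 ^ (ℓ + 2) + ℓ ∨
  (∀ b ∈ A, ∀ c ∈ A, OddComm a b → OddComm a c →
    (Nat.clog 2 (classCard A a) : ℝ) * (|b| - |c|) < |c|) ∨
  (∃ (g : ℝ) (q ρ : ℤ), (Nat.clog 2 (classCard A a) : ℤ) + 1 < q ∧ IsCoprime q ρ ∧
    ∀ b ∈ A, OddComm a b → ∃ k : ℤ, b = g * k ∧ (q ∣ k - ρ ∨ q ∣ k + ρ))

lemma ClassLoss.mono {A : Finset ℝ} {a : ℝ} {ℓ m : ℕ} (h : ClassLoss A a ℓ) (hm : ℓ ≤ m) :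
    ClassLoss A a m := by
  obtain ⟨B, hB, h1, h2, h3⟩ := h
  exact ⟨B, hB, h1, h2, h3.trans (Nat.pow_le_pow_right (by norm_num) (by omega))⟩

lemma TameClass.classLoss {A : Finset ℝ} {a : ℝ} {ℓ : ℕ} (haA : a ∈ A) (ha : a ≠ 0)
    (h : TameClass A a ℓ) : ClassLoss A a ℓ := by
  rcases h with h | h | h | h | ⟨g, q, ρ, hq, hco, h⟩
  · exact h
  · exact (good_small A a haA ha h).mono (Nat.zero_le _)
  · exact good_loss A a haA ha ℓ h
  · exact (good_narrow A a haA ha h).mono (Nat.zero_le _)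
  · exact (good_residue A a haA ha g q ρ hq hco h).mono (Nat.zero_le _)

theorem tame_main (A : Finset ℝ) (ℓ : ℕ)
    (h : A.card < 64 ∨ ∀ a ∈ A, a ≠ 0 → TameClass A a ℓ) :
    ∃ B ⊆ A, Nat.log 2 A.card ≤ B.card + ℓ ∧ AddDissociated (B : Set ℝ) := by
  rcases h with h | h
  · obtain ⟨B, hB, h1, h2⟩ := lt_64 A h
    exact ⟨B, hB, by omega, h2⟩
  · obtain ⟨B, hB, -, h1, h2⟩ := local_global A ℓ (fun a haA ha => (h a haA ha).classLoss haA ha)
    exact ⟨B, hB, h1, h2⟩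

end Pool.Agent.Helper82.FC
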